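import Mathlib
import Pool.Agent.H14.GP.Defs

/-!
# MP_103a5c_HF, block V2 (mean values with several long prime sums): definitions
-/

open MeasureTheory Set Filter Topology
open scoped Real ContDiff ComplexConjugate

namespace Pool.Agent.H24.HF

open Pool.Agent.H6 Pool.Agent.H14.GP

/-- Cells with `θ < 1`: `G j` is smooth, nonnegative, supported in `(θ(j-1)/M, θ j/M)` away from `0`,
with `∫ G_j(x)^2 dx/x = 1/j` for `1 ≤ j < M`. -/
structure Cells1 (M : ℕ) (θ : ℝ) (G : ℕ → ℝ → ℝ) : Prop where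
  M_pos : 2 ≤ M
  θ_pos : 0 < θ
  θ_lt : θ < 1
  smooth : ∀ j, ContDiff ℝ ∞ (G j)
  nonneg : ∀ j x, 0 ≤ G j x
  low : ∃ a, 0 < a ∧ ∀ j x, x ≤ a → G j x = 0
  cell : ∀ j x, G j x ≠ 0 → θ * ((j : ℝ) - 1) / M < x ∧ x < θ * j / M
  out : ∀ j, (j < 1 ∨ M ≤ j) → ∀ x, G j x = 0
  norm : ∀ j, 1 ≤ j → j < M → ∫ x in Ioi (0 : ℝ), G j x ^ 2 / x = 1 / (j : ℝ)

/-- the long prime sum `∑_{p ≤ T^W} H(log p / log T) p^(-1/2) [p]` -/
noncomputable def bbW (H : ℝ → ℝ) (W T : ℝ) : DPoly := bb (fun x => H (W * x)) (T ^ W)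

/-- polynomials in the variables `Y_j` -/
abbrev QQ := MvPolynomial ℕ ℝ

/-- substitution `y_j ↦ bb (G j) T` -/
noncomputable def evQ (G : ℕ → ℝ → ℝ) (T : ℝ) : QQ →ₐ[ℝ] DPoly := MvPolynomial.aeval (fun j => bb (G j) T)

/-- `D_κ Q = ∑_{i<M} κ_i ∂_i Q` -/
noncomputable def DQ (M : ℕ) (κ : ℕ → ℝ) (Q : QQ) : QQ := ∑ i ∈ Finset.range M, κ i • MvPolynomial.pderiv i Q

/-- iterated `D_κ` -/
noncomputable def DL (M : ℕ) : List (ℕ → ℝ) → QQ → QQ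
  | [], Q => Q
  | κ :: l, Q => DL M l (DQ M κ Q)

/-- weighted degree at most `D` -/
def WDeg (D : ℕ) (Q : QQ) : Prop := ∀ m ∈ Q.support, (m.sum fun j e => j * e) ≤ D

/-- `κ_i = ∫_{x>0} G_i(x) H(x) dx/x` -/
noncomputable def kp (G : ℕ → ℝ → ℝ) (H : ℝ → ℝ) (i : ℕ) : ℝ := ∫ x in Ioi (0 : ℝ), G i x * H x / x

/-- `p`-adic valuation weight: the derivation `[n] ↦ v_p(n) [n]` of the algebra of Dirichlet polynomials -/
noncomputable def Np (p : ℕ) (X : DPoly) : DPoly :=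
  ∑ n ∈ X.coeff.support, MonoidAlgebra.single n ((padicValNat p n : ℝ) * X.coeff n)

/-- the coefficient `G_i(log p/log T) p^(-1/2)` of `bb (G i) T` at a prime `p` -/
noncomputable def xc (G : ℝ → ℝ) (T : ℝ) (p : ℕ) : ℝ := G (Real.log p / Real.log T) * (p : ℝ) ^ (-(1 / 2) : ℝ)

end Pool.Agent.H24.HF
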