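import Mathlib
import Pool.Agent.H24.HF.Defs
import Pool.Agent.H14.GP.Vc
import Pool.Agent.H14.GP.Vd

/-!
# Row HFNa (150 lines): the derivation `N_p` and the chain rule

(1) `Np_coeff`: `(Np p X).coeff n = v_p(n) X_n` (coefficient of a sum of singles; `X_n = 0` off the support).
(2) `Np_mul`: if `X_0 = 0`, `Y_0 = 0` (no term `n = 0`) then `Np p (X*Y) = Np p X * Y + X * Np p Y`.
    PROOF. `Np p` is additive and `Np p (single n c) = single n (v_p(n) c)`; both sides are bilinear, so expand
    `X = ∑_m single m X_m`, `Y = ∑_n single n Y_n` and use `v_p(mn) = v_p(m) + v_p(n)` for `m, n ≠ 0` (`padicValNat.mul`).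
    Also `(X*Y)_0 = 0`.
(3) `Np_bb`: for `p` prime, `T > 1`: `Np p (bb G T) = single p (xc G T p)` if `p ≤ T` and `= 0` if `p > T`; stated for `G` with
    `G x = 0` for `x ≥ 1`... here as `Np p (bb G T) = single p (xc G T p)` under the hypothesis `G x = 0` for `1 ≤ x` (then both
    sides are `0` when `p > T`, as `log p/log T ≥ 1`). (`v_p(q) = [p = q]` for primes `q`.)
(4) `chain`: `Np p (evQ G T Q) = ∑_{i ∈ range M} single p (xc (G i) T p) * evQ G T (pderiv i Q)` for `p` prime, `T > 1`, cells `G`
    (`G i = 0` for `i ≥ M`): induction on `Q` (`MvPolynomial.induction_on`: constants: `Np p (single 1 c) = 0` as `v_p(1) = 0`;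
    sums; product with a variable `y_j`: (2), (3) and `pderiv` Leibniz). All the Dirichlet polynomials involved have
    no term `n = 0` (`evQ_coeff_zero`: prove it first, same induction, `bb_coeff_zero`).
(5) `coeff_step`: comparing the coefficients of (4) at `p n`, `n ≥ 1`: `v_p(pn) = v_p(n) + 1` and the coefficient of
    `single p c * Z` at `p n` is `c Z_n` (`p ≠ 0` cancels):
    `(v_p(n) + 1) (evQ G T Q)_{pn} = ∑_i xc (G i) T p (evQ G T (pderiv i Q))_n`.
-/

open MeasureTheory Set Filter Topology
open scoped Real ContDiff ComplexConjugate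

namespace Pool.Agent.H24.HF

open Pool.Agent.H6 Pool.Agent.H14.GP

private theorem na_mul_coeff {X Y : DPoly} {S S' : Finset ℕ} (hS : X.coeff.support ⊆ S)
    (hS' : Y.coeff.support ⊆ S') (k : ℕ) :
    (X * Y).coeff k = ∑ m ∈ S, ∑ n ∈ S', if m * n = k then X.coeff m * Y.coeff n else 0 := by
  rw [MonoidAlgebra.coeff_mul]
  have h1 : ∀ m, (Y.coeff.sum fun n b => if m * n = k then X.coeff m * b else 0)
      = ∑ n ∈ S', if m * n = k then X.coeff m * Y.coeff n else 0 := by
    intro m
    apply Finset.sum_subset hS'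
    intro n _ hn
    have : Y.coeff n = 0 := Finsupp.notMem_support_iff.1 hn
    simp only [this, mul_zero, ite_self]
  have h2 : (X.coeff.sum fun m a => Y.coeff.sum fun n b => if m * n = k then a * b else 0)
      = ∑ m ∈ S, (Y.coeff.sum fun n b => if m * n = k then X.coeff m * b else 0) := by
    apply Finset.sum_subset hS
    intro m _ hm
    have : X.coeff m = 0 := Finsupp.notMem_support_iff.1 hm
    simp only [this, zero_mul, ite_self]
    exact Finset.sum_const_zero
  rw [h2]
  exact Finset.sum_congr rfl fun m _ => h1 m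

private theorem na_mul_zero {X Y : DPoly} (hX : X.coeff 0 = 0) (hY : Y.coeff 0 = 0) : (X * Y).coeff 0 = 0 := by
  rw [na_mul_coeff (Finset.Subset.refl _) (Finset.Subset.refl _)]
  apply Finset.sum_eq_zero
  intro m _
  apply Finset.sum_eq_zero
  intro n _
  split_ifs with h
  · rcases Nat.mul_eq_zero.1 h with h | h
    · rw [h, hX, zero_mul]
    · rw [h, hY, mul_zero]
  · rfl

private theorem na_coeff (p : ℕ) (X : DPoly) (n : ℕ) :
    (Np p X).coeff n = (padicValNat p n : ℝ) * X.coeff n := by
  unfold Np
  rw [MonoidAlgebra.coeff_sum, Finsupp.finsetSum_apply]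
  simp only [MonoidAlgebra.coeff_single, Finsupp.single_apply]
  rw [Finset.sum_ite_eq']
  split_ifs with h
  · rfl
  · rw [Finsupp.notMem_support_iff.1 h, mul_zero]

private theorem na_ext {X Y : DPoly} (h : ∀ n, X.coeff n = Y.coeff n) : X = Y :=
  MonoidAlgebra.coeff_injective (Finsupp.ext h)

private theorem na_add (p : ℕ) (X Y : DPoly) : Np p (X + Y) = Np p X + Np p Y := by
  apply na_ext
  intro n
  rw [MonoidAlgebra.coeff_add, Finsupp.add_apply, na_coeff, na_coeff, na_coeff, MonoidAlgebra.coeff_add,
    Finsupp.add_apply]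
  ring

private theorem na_mul {p : ℕ} (hp : p.Prime) {X Y : DPoly} (hX : X.coeff 0 = 0) (hY : Y.coeff 0 = 0) :
    Np p (X * Y) = Np p X * Y + X * Np p Y := by
  have := Fact.mk hp
  have sX : (Np p X).coeff.support ⊆ X.coeff.support := by
    intro n hn
    rw [Finsupp.mem_support_iff] at hn ⊢
    intro h
    rw [na_coeff, h, mul_zero] at hn
    exact hn rfl
  have sY : (Np p Y).coeff.support ⊆ Y.coeff.support := by
    intro n hn
    rw [Finsupp.mem_support_iff] at hn ⊢
    intro h
    rw [na_coeff, h, mul_zero] at hn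
    exact hn rfl
  apply na_ext
  intro k
  rw [na_coeff, MonoidAlgebra.coeff_add, Finsupp.add_apply,
    na_mul_coeff (Finset.Subset.refl _) (Finset.Subset.refl _),
    na_mul_coeff sX (Finset.Subset.refl _), na_mul_coeff (Finset.Subset.refl _) sY,
    Finset.mul_sum, ← Finset.sum_add_distrib]
  apply Finset.sum_congr rfl
  intro m _
  rw [Finset.mul_sum, ← Finset.sum_add_distrib]
  apply Finset.sum_congr rfl
  intro n _
  rw [na_coeff, na_coeff]
  split_ifs with h
  · by_cases hm : m = 0
    · rw [hm, hX]; ring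
    by_cases hn : n = 0
    · rw [hn, hY]; ring
    rw [← h, padicValNat.mul hm hn]
    push_cast
    ring
  · ring

private theorem na_bb {M : ℕ} {θ : ℝ} {G : ℕ → ℝ → ℝ} (hG : Cells1 M θ G) (i : ℕ) {T : ℝ} (hT : 1 < T) {p : ℕ}
    (hp : p.Prime) : Np p (bb (G i) T) = MonoidAlgebra.single p (xc (G i) T p) := by
  have := Fact.mk hp
  apply na_ext
  intro n
  rw [na_coeff, bb_coeff, MonoidAlgebra.coeff_single, Finsupp.single_apply]
  by_cases hpn : p = n
  · subst hpn
    rw [if_pos rfl, padicValNat_self]
    by_cases hpT : p ≤ ⌊T⌋₊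
    · rw [if_pos ⟨hpT, hp⟩]
      unfold xc
      push_cast
      ring
    · rw [if_neg (fun h => hpT h.1)]
      have h1 : G i (Real.log p / Real.log T) = 0 := by
        by_contra hc
        have h2 := hG.cell i _ hc
        have hi : i < M := by
          by_contra h
          exact hc (hG.out i (Or.inr (not_lt.1 h)) _)
        have hlog : 0 < Real.log T := Real.log_pos hT
        have hTp : T ≤ p := by
          have := Nat.lt_of_floor_lt (not_le.1 hpT)
          exact this.le
        have h3 : 1 ≤ Real.log p / Real.log T := by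
          rw [le_div_iff₀ hlog, one_mul]
          exact Real.log_le_log (by linarith) hTp
        have hM : (0 : ℝ) < M := by
          have := hG.M_pos
          exact_mod_cast (by omega : 0 < M)
        have h4 : θ * i / M < 1 := by
          rw [div_lt_one hM]
          have h5 : (i : ℝ) < M := by exact_mod_cast hi
          have h6 : (0 : ℝ) ≤ i := Nat.cast_nonneg i
          nlinarith [hG.θ_lt, hG.θ_pos]
        linarith [h2.2]
      unfold xc
      rw [h1]
      ring
  · rw [if_neg hpn]
    by_cases hn : n ≤ ⌊T⌋₊ ∧ n.Prime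
    · have : padicValNat p n = 0 := by
        apply padicValNat.eq_zero_of_not_dvd
        intro h
        exact hpn ((Nat.prime_dvd_prime_iff_eq hp hn.2).1 h)
      rw [this]
      simp
    · rw [if_neg hn, mul_zero]

theorem evQ_coeff_zero (G : ℕ → ℝ → ℝ) (T : ℝ) (Q : QQ) : (evQ G T Q).coeff 0 = 0 := by
  induction Q using MvPolynomial.induction_on with
  | C a =>
    unfold evQ
    rw [MvPolynomial.aeval_C]
    change (MonoidAlgebra.single (1 : ℕ) a : DPoly).coeff 0 = 0
    rw [MonoidAlgebra.coeff_single, Finsupp.single_apply, if_neg one_ne_zero]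
  | add P Q hP hQ =>
    rw [map_add, MonoidAlgebra.coeff_add, Finsupp.add_apply, hP, hQ, add_zero]
  | mul_X P i hP =>
    rw [map_mul]
    apply na_mul_zero hP
    unfold evQ
    rw [MvPolynomial.aeval_X]
    exact bb_coeff_zero _ _

private theorem na_chain {M : ℕ} {θ : ℝ} {G : ℕ → ℝ → ℝ} (hG : Cells1 M θ G) {T : ℝ} (hT : 1 < T) (Q : QQ) {p : ℕ}
    (hp : p.Prime) :
    Np p (evQ G T Q)
      = ∑ i ∈ Finset.range M, MonoidAlgebra.single p (xc (G i) T p) * evQ G T (MvPolynomial.pderiv i Q) := by
  induction Q using MvPolynomial.induction_on with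
  | C a =>
    have h1 : evQ G T (MvPolynomial.C a) = (MonoidAlgebra.single (1 : ℕ) a : DPoly) := by
      unfold evQ
      rw [MvPolynomial.aeval_C]
      rfl
    rw [h1]
    have h2 : ∀ i ∈ Finset.range M, (MonoidAlgebra.single p (xc (G i) T p) * evQ G T (MvPolynomial.pderiv i (MvPolynomial.C a)) : DPoly) = 0 := by
      intro i _
      rw [MvPolynomial.pderiv_C, map_zero, mul_zero]
    rw [Finset.sum_eq_zero h2]
    apply na_ext
    intro n
    rw [na_coeff, MonoidAlgebra.coeff_single, Finsupp.single_apply]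
    split_ifs with h
    · rw [← h]
      simp
    · rw [mul_zero]
      rfl
  | add P Q hP hQ =>
    rw [map_add, na_add, hP, hQ, ← Finset.sum_add_distrib]
    apply Finset.sum_congr rfl
    intro i _
    rw [map_add, map_add, mul_add]
  | mul_X P j hP =>
    have h0 : evQ G T (MvPolynomial.X j) = Pool.Agent.H14.GP.bb (G j) T := by
      unfold evQ
      rw [MvPolynomial.aeval_X]
    have h1 := evQ_coeff_zero G T P
    have h2 := bb_coeff_zero (G j) T
    rw [map_mul, h0, na_mul hp h1 h2, hP, na_bb hG j hT hp]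
    have h3 : ∀ i ∈ Finset.range M, (MonoidAlgebra.single p (xc (G i) T p)
          * evQ G T (MvPolynomial.pderiv i (P * MvPolynomial.X j)) : DPoly)
        = MonoidAlgebra.single p (xc (G i) T p) * evQ G T (MvPolynomial.pderiv i P) * Pool.Agent.H14.GP.bb (G j) T
          + (if i = j then evQ G T P * MonoidAlgebra.single p (xc (G j) T p) else 0) := by
      intro i _
      rw [Derivation.leibniz, map_add, smul_eq_mul, smul_eq_mul, map_mul, map_mul, h0, MvPolynomial.pderiv_X]
      by_cases hij : i = j
      · subst hij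
        rw [if_pos rfl, Pi.single_eq_same, map_one]
        ring
      · rw [if_neg hij, Pi.single_eq_of_ne' hij, map_zero]
        ring
    rw [Finset.sum_congr rfl h3, Finset.sum_add_distrib, Finset.sum_mul, Finset.sum_ite_eq']
    congr 1
    by_cases hj : j ∈ Finset.range M
    · rw [if_pos hj]
    · rw [if_neg hj]
      have h4 : xc (G j) T p = 0 := by
        unfold xc
        rw [hG.out j (Or.inr (not_lt.1 (fun h => hj (Finset.mem_range.2 h)))), zero_mul]
      rw [h4, MonoidAlgebra.single_zero, mul_zero]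

private theorem na_single_mul {p : ℕ} (hp : p.Prime) (c : ℝ) (Z : DPoly) (n : ℕ) :
    ((MonoidAlgebra.single p c : DPoly) * Z).coeff (p * n) = c * Z.coeff n := by
  have h1 : (MonoidAlgebra.single p c : DPoly).coeff.support ⊆ {p} := by
    rw [MonoidAlgebra.coeff_single]
    exact Finsupp.support_single_subset
  rw [na_mul_coeff h1 (Finset.Subset.refl _), Finset.sum_singleton, MonoidAlgebra.coeff_single,
    Finsupp.single_eq_same]
  have h2 : ∀ k ∈ Z.coeff.support, (if p * k = p * n then c * Z.coeff k else 0)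
      = if k = n then c * Z.coeff k else 0 := by
    intro k _
    by_cases h : k = n
    · rw [if_pos h, h, if_pos rfl]
    · rw [if_neg h, if_neg]
      intro h'
      exact h (Nat.eq_of_mul_eq_mul_left hp.pos h')
  rw [Finset.sum_congr rfl h2, Finset.sum_ite_eq']
  split_ifs with h
  · rfl
  · rw [Finsupp.notMem_support_iff.1 h, mul_zero]

theorem coeff_step {M : ℕ} {θ : ℝ} {G : ℕ → ℝ → ℝ} (hG : Cells1 M θ G) {T : ℝ} (hT : 1 < T) (Q : QQ) {p : ℕ}
    (hp : p.Prime) {n : ℕ} (hn : n ≠ 0) :
    ((padicValNat p n : ℝ) + 1) * (evQ G T Q).coeff (p * n)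
      = ∑ i ∈ Finset.range M, xc (G i) T p * (evQ G T (MvPolynomial.pderiv i Q)).coeff n := by
  have := Fact.mk hp
  have h1 := congrArg (fun X : DPoly => X.coeff (p * n)) (na_chain hG hT Q hp)
  beta_reduce at h1
  rw [na_coeff, MonoidAlgebra.coeff_sum, Finsupp.finsetSum_apply, padicValNat.mul hp.ne_zero hn,
    padicValNat_self] at h1
  rw [Finset.sum_congr rfl (fun i _ => na_single_mul hp (xc (G i) T p) (evQ G T (MvPolynomial.pderiv i Q)) n)] at h1
  rw [← h1]
  push_cast
  ring

end Pool.Agent.H24.HF
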