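import Mathlib
import Pool.Agent.H24.HF.Defs
import Pool.Agent.H24.HF.Na
import Pool.Agent.H14.GP.Vc
import Pool.Agent.H14.GP.Vd

/-!
# Row HFNb (200 lines): one step of integration by parts

Notation: `h(p) = xc H T p`, `x_i(p) = xc (G i) T p`. `bbW H W T = ∑_{p ≤ T^W} h(p) [p]` (`log p/log (T^W) = (log p/log T)/W`,
`T > 1`, `W ≥ 1`), so (`ip_sum_left`; `(single p c * X)`: `ip (single p c * X) Y = c ∑_n X_n Y_{pn}`; expand `X = ∑ single n X_n` and
use `MonoidAlgebra.single_mul_single`, `ip_single_left`)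
`ip (bbW H W T * X) (evQ G T Q) = ∑_{p ≤ T^W prime} h(p) ∑_{n ∈ supp X} X_n (evQ Q)_{pn}`
`= ∑_p ∑_n h(p) X_n (v_p(n)+1)^{-1} ∑_i x_i(p) (evQ (∂_i Q))_n` by `coeff_step` (`X_0 = 0`, so `n ≥ 1`).
`x_i(p) = 0` for `p > T` (there `log p/log T ≥ 1 > θ`), so only `p ≤ T` count, and
`∑_{p≤T} h(p) x_i(p) = kT i := ∑_{p ≤ T} H(u_p) G_i(u_p)/p`, `u_p = log p/log T` (`p^{-1/2} p^{-1/2} = 1/p`).
Hence the difference of the left side and `∑_i kT i * ip X (evQ (∂_i Q))` is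
`∑_i ∑_p h(p) x_i(p) ∑_n X_n (evQ(∂_iQ))_n ((v_p(n)+1)^{-1} - 1)`, the last factor is `0` unless `p ∣ n` and else `≤ 1` in absolute value.
`|h(p) x_i(p)| ≤ ε`. For fixed `n` in the support of `evQ (∂_i Q)`, `n ≤ T` (hypothesis `hS`), and the primes `p ∣ n` with
`x_i(p) ≠ 0` satisfy `p > T^a` (`G_i(u) = 0` for `u ≤ a`): their product divides `n ≤ T`, so there are at most `1/a` of them.
So the error is at most `(ε/a) ∑_i ∑_n |X_n| |(evQ(∂_iQ))_n| ≤ (ε/a) ∑_i ip X⁺ (evQ (∂_iQ))`, since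
`|X_n| ≤ X⁺_n` and `(evQ(∂_iQ))_n ≥ 0` (hypothesis `hpos`).
-/

open MeasureTheory Set Filter Topology
open scoped Real ContDiff ComplexConjugate

namespace Pool.Agent.H24.HF

open Pool.Agent.H6 Pool.Agent.H14.GP

private lemma Nb_mul_single (p : ℕ) (c : ℝ) (X Y : DPoly) :
    ip (MonoidAlgebra.single p c * X) Y = c * ∑ n ∈ X.coeff.support, X.coeff n * Y.coeff (p * n) := by
  have e : MonoidAlgebra.single p c * X = ∑ n ∈ X.coeff.support,
      (MonoidAlgebra.single (p * n) (c * X.coeff n) : DPoly) := by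
    rw [MonoidAlgebra.mul_def, MonoidAlgebra.coeff_single, Finsupp.sum_single_index]
    · rfl
    · simp
  rw [e, ip_sum_left, Finset.mul_sum]
  refine Finset.sum_congr rfl fun n _ => ?_
  rw [ip_single_left]
  ring

private lemma Nb_bbW (H : ℝ → ℝ) {W T : ℝ} (hW : 1 ≤ W) (hT : 1 < T) :
    bbW H W T = ∑ p ∈ (Finset.range (⌊T ^ W⌋₊ + 1)).filter Nat.Prime,
      (MonoidAlgebra.single p (xc H T p) : DPoly) := by
  unfold bbW H14.GP.bb
  refine Finset.sum_congr rfl fun p _ => ?_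
  unfold xc
  have h0 := (Real.log_pos hT).ne'
  have hW0 : W ≠ 0 := by positivity
  have : W * (Real.log p / Real.log (T ^ W)) = Real.log p / Real.log T := by
    rw [Real.log_rpow (by linarith)]
    field_simp
  dsimp only
  rw [this]

private lemma Nb_card {T a : ℝ} (hT : 1 < T) (ha : 0 < a) {n : ℕ} (hn : n ≠ 0) (hnT : (n : ℝ) ≤ T)
    (S : Finset ℕ) (hS : ∀ p ∈ S, p.Prime ∧ p ∣ n ∧ T ^ a < (p : ℝ)) : (S.card : ℝ) ≤ 1 / a := by
  have h1 : ∏ p ∈ S, p ∣ n :=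
    Finset.prod_primes_dvd n (fun p hp => (hS p hp).1.prime) (fun p hp => (hS p hp).2.1)
  have h2 : ((∏ p ∈ S, p : ℕ) : ℝ) ≤ T := by
    refine le_trans ?_ hnT
    exact_mod_cast Nat.le_of_dvd (Nat.pos_of_ne_zero hn) h1
  have h3 : (T ^ a) ^ S.card ≤ ∏ p ∈ S, (p : ℝ) := by
    rw [← Finset.prod_const]
    exact Finset.prod_le_prod (fun _ _ => by positivity) (fun p hp => (hS p hp).2.2.le)
  have h4 : T ^ (a * S.card) ≤ T ^ (1 : ℝ) := by
    rw [Real.rpow_mul (by linarith), Real.rpow_natCast, Real.rpow_one]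
    push_cast at h2
    exact h3.trans h2
  have h5 := (Real.rpow_le_rpow_left_iff hT).1 h4
  rw [le_div_iff₀ ha]
  linarith

private lemma Nb_xz {M : ℕ} {θ : ℝ} {G : ℕ → ℝ → ℝ} (hG : Cells1 M θ G) {T : ℝ} (hT : 1 < T) (i p : ℕ)
    (hp : T < (p : ℝ)) : xc (G i) T p = 0 := by
  unfold xc
  by_cases h : G i (Real.log p / Real.log T) = 0
  · rw [h, zero_mul]
  exfalso
  have h1 := (hG.cell i _ h).2
  have hi : i < M := by
    by_contra hi
    exact h (hG.out i (Or.inr (not_lt.1 hi)) _)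
  have hM : (0 : ℝ) < M := by
    have := hG.M_pos
    exact_mod_cast (by omega : 0 < M)
  have h2 : θ * i / M ≤ θ := by
    rw [div_le_iff₀ hM]
    exact mul_le_mul_of_nonneg_left (by exact_mod_cast hi.le) hG.θ_pos.le
  have h3 : 1 < Real.log p / Real.log T := by
    rw [one_lt_div (Real.log_pos hT)]
    exact Real.log_lt_log (by linarith) hp
  have := hG.θ_lt
  linarith

private lemma Nb_sq {p : ℕ} (hp : p.Prime) (G H : ℝ → ℝ) (T : ℝ) :
    G (Real.log p / Real.log T) * H (Real.log p / Real.log T) / p = xc H T p * xc G T p := by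
  unfold xc
  have hp0 : (0 : ℝ) < p := by exact_mod_cast hp.pos
  have h : (p : ℝ) ^ (-(1 / 2) : ℝ) * (p : ℝ) ^ (-(1 / 2) : ℝ) = (p : ℝ)⁻¹ := by
    rw [← Real.rpow_add hp0, ← Real.rpow_neg_one]
    norm_num
  rw [div_eq_mul_inv, ← h]
  ring

private lemma Nb_term {M : ℕ} {θ : ℝ} {G : ℕ → ℝ → ℝ} (hG : Cells1 M θ G) {T : ℝ} (hT : 1 < T)
    (H : ℝ → ℝ) (Q : QQ) {X : DPoly} (hX0 : X.coeff 0 = 0) {p : ℕ} (hp : p.Prime) :
    xc H T p * ∑ n ∈ X.coeff.support, X.coeff n * (evQ G T Q).coeff (p * n) =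
      ∑ i ∈ Finset.range M, ∑ n ∈ X.coeff.support,
        X.coeff n * (evQ G T (MvPolynomial.pderiv i Q)).coeff n *
          (xc H T p * xc (G i) T p * ((padicValNat p n : ℝ) + 1)⁻¹) := by
  rw [Finset.sum_comm, Finset.mul_sum]
  refine Finset.sum_congr rfl fun n hn => ?_
  have hn0 : n ≠ 0 := by
    rintro rfl
    exact (Finsupp.mem_support_iff.1 hn) hX0
  have h1 := coeff_step hG hT Q hp hn0
  have h2 : ((padicValNat p n : ℝ) + 1) ≠ 0 := by positivity
  have h3 : (evQ G T Q).coeff (p * n) = ((padicValNat p n : ℝ) + 1)⁻¹ *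
      ∑ i ∈ Finset.range M, xc (G i) T p * (evQ G T (MvPolynomial.pderiv i Q)).coeff n := by
    rw [← h1, ← mul_assoc, inv_mul_cancel₀ h2, one_mul]
  rw [h3, Finset.mul_sum, Finset.mul_sum, Finset.mul_sum]
  refine Finset.sum_congr rfl fun i _ => ?_
  ring

private lemma Nb_err {T a : ℝ} (hT : 1 < T) (ha : 0 < a) {g : ℝ → ℝ} (hlow : ∀ x, x ≤ a → g x = 0)
    (H : ℝ → ℝ) {ε : ℝ} (hε0 : 0 ≤ ε) (hε : ∀ p : ℕ, p.Prime → |xc H T p * xc g T p| ≤ ε) {n : ℕ}
    (hn : n ≠ 0) (hnT : (n : ℝ) ≤ T) (P : Finset ℕ) (hP : ∀ p ∈ P, p.Prime) :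
    |∑ p ∈ P, xc H T p * xc g T p * (((padicValNat p n : ℝ) + 1)⁻¹ - 1)| ≤ ε / a := by
  classical
  obtain ⟨S, hS⟩ : ∃ S : Finset ℕ, S = P.filter (fun p => p ∣ n ∧ T ^ a < (p : ℝ)) := ⟨_, rfl⟩
  have h1 : ∑ p ∈ P, xc H T p * xc g T p * (((padicValNat p n : ℝ) + 1)⁻¹ - 1) =
      ∑ p ∈ S, xc H T p * xc g T p * (((padicValNat p n : ℝ) + 1)⁻¹ - 1) := by
    symm
    refine Finset.sum_subset (by rw [hS]; exact Finset.filter_subset _ _) ?_
    intro p hp hpS
    by_cases hd : p ∣ n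
    · by_cases hb : T ^ a < (p : ℝ)
      · exfalso
        apply hpS
        rw [hS, Finset.mem_filter]
        exact ⟨hp, hd, hb⟩
      · have hx : xc g T p = 0 := by
          unfold xc
          have hp0 : (0 : ℝ) < p := by exact_mod_cast (hP p hp).pos
          have h4 : Real.log p / Real.log T ≤ a := by
            rw [div_le_iff₀ (Real.log_pos hT), ← Real.log_rpow (by linarith)]
            exact Real.log_le_log hp0 (not_lt.1 hb)
          rw [hlow _ h4, zero_mul]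
        rw [hx, mul_zero, zero_mul]
    · have hv : padicValNat p n = 0 := padicValNat.eq_zero_of_not_dvd hd
      rw [hv]
      simp
  rw [h1]
  have hc : (S.card : ℝ) ≤ 1 / a := by
    refine Nb_card hT ha hn hnT S ?_
    intro p hp
    rw [hS, Finset.mem_filter] at hp
    exact ⟨hP p hp.1, hp.2.1, hp.2.2⟩
  have h2 : ∀ p ∈ S, |xc H T p * xc g T p * (((padicValNat p n : ℝ) + 1)⁻¹ - 1)| ≤ ε := by
    intro p hp
    rw [hS, Finset.mem_filter] at hp
    have h5 := hε p (hP p hp.1)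
    rw [abs_mul]
    have h6 : |((padicValNat p n : ℝ) + 1)⁻¹ - 1| ≤ 1 := by
      have h7 : (0 : ℝ) < ((padicValNat p n : ℝ) + 1)⁻¹ := by positivity
      have h8 : ((padicValNat p n : ℝ) + 1)⁻¹ ≤ 1 := by
        apply inv_le_one_of_one_le₀
        have : (0 : ℝ) ≤ (padicValNat p n : ℝ) := Nat.cast_nonneg _
        linarith
      rw [abs_le]
      constructor <;> linarith
    calc |xc H T p * xc g T p| * |((padicValNat p n : ℝ) + 1)⁻¹ - 1| ≤ ε * 1 :=
          mul_le_mul h5 h6 (abs_nonneg _) hε0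
      _ = ε := mul_one ε
  calc |∑ p ∈ S, xc H T p * xc g T p * (((padicValNat p n : ℝ) + 1)⁻¹ - 1)|
      ≤ ∑ p ∈ S, |xc H T p * xc g T p * (((padicValNat p n : ℝ) + 1)⁻¹ - 1)| :=
        Finset.abs_sum_le_sum_abs _ _
    _ ≤ S.card • ε := Finset.sum_le_card_nsmul _ _ _ h2
    _ = (S.card : ℝ) * ε := nsmul_eq_mul _ _
    _ ≤ (1 / a) * ε := mul_le_mul_of_nonneg_right hc hε0
    _ = ε / a := by ring

theorem ibp_step {M : ℕ} {θ : ℝ} {G : ℕ → ℝ → ℝ} (hG : Cells1 M θ G) {a : ℝ} (ha : 0 < a) (hlow : ∀ j x, x ≤ a → G j x = 0)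
    {T : ℝ} (hT : 1 < T) {W : ℝ} (hW : 1 ≤ W) (H : ℝ → ℝ) (Q : QQ) {X X' : DPoly} (hX0 : X.coeff 0 = 0)
    (hXX : ∀ n, |X.coeff n| ≤ X'.coeff n)
    (hpos : ∀ i n, 0 ≤ (evQ G T (MvPolynomial.pderiv i Q)).coeff n)
    (hS : ∀ i n, (evQ G T (MvPolynomial.pderiv i Q)).coeff n ≠ 0 → (n : ℝ) ≤ T)
    {ε : ℝ} (hε : ∀ i, ∀ p : ℕ, p.Prime → |xc H T p * xc (G i) T p| ≤ ε) :
    |ip (bbW H W T * X) (evQ G T Q)
      - ∑ i ∈ Finset.range M, (∑ p ∈ (Finset.range (⌊T⌋₊ + 1)).filter Nat.Prime,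
          G i (Real.log p / Real.log T) * H (Real.log p / Real.log T) / p) * ip X (evQ G T (MvPolynomial.pderiv i Q))|
      ≤ ε / a * ∑ i ∈ Finset.range M, ip X' (evQ G T (MvPolynomial.pderiv i Q)) := by
  classical
  have hε0 : 0 ≤ ε := (abs_nonneg _).trans (hε 0 2 Nat.prime_two)
  obtain ⟨Y, hY⟩ : ∃ Y : ℕ → ℕ → ℝ, Y = fun i n => (evQ G T (MvPolynomial.pderiv i Q)).coeff n :=
    ⟨_, rfl⟩
  have hYe : ∀ i n, (evQ G T (MvPolynomial.pderiv i Q)).coeff n = Y i n := fun i n => by rw [hY]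
  obtain ⟨P, hP⟩ : ∃ P, P = (Finset.range (⌊T⌋₊ + 1)).filter Nat.Prime := ⟨_, rfl⟩
  have hPp : ∀ p ∈ P, p.Prime := fun p hp => by
    rw [hP, Finset.mem_filter] at hp
    exact hp.2
  have hL : ip (bbW H W T * X) (evQ G T Q) = ∑ i ∈ Finset.range M, ∑ n ∈ X.coeff.support,
      X.coeff n * Y i n * ∑ p ∈ P, xc H T p * xc (G i) T p * ((padicValNat p n : ℝ) + 1)⁻¹ := by
    rw [Nb_bbW H hW hT, Finset.sum_mul, ip_sum_left]
    have h1 : ∀ p ∈ (Finset.range (⌊T ^ W⌋₊ + 1)).filter Nat.Prime,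
        ip (MonoidAlgebra.single p (xc H T p) * X) (evQ G T Q) =
        ∑ i ∈ Finset.range M, ∑ n ∈ X.coeff.support,
        X.coeff n * Y i n * (xc H T p * xc (G i) T p * ((padicValNat p n : ℝ) + 1)⁻¹) := by
      intro p hp
      rw [Nb_mul_single, Nb_term hG hT H Q hX0 (Finset.mem_filter.1 hp).2]
      simp only [hYe]
    rw [Finset.sum_congr rfl h1]
    have hsub : P ⊆ (Finset.range (⌊T ^ W⌋₊ + 1)).filter Nat.Prime := by
      rw [hP]
      intro p hp
      rw [Finset.mem_filter, Finset.mem_range] at hp ⊢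
      refine ⟨?_, hp.2⟩
      have h2 : ⌊T⌋₊ ≤ ⌊T ^ W⌋₊ := Nat.floor_le_floor (by
        calc T = T ^ (1 : ℝ) := (Real.rpow_one T).symm
          _ ≤ T ^ W := Real.rpow_le_rpow_of_exponent_le hT.le hW)
      omega
    rw [← Finset.sum_subset hsub]
    · rw [Finset.sum_comm]
      refine Finset.sum_congr rfl fun i _ => ?_
      rw [Finset.sum_comm]
      refine Finset.sum_congr rfl fun n _ => ?_
      rw [Finset.mul_sum]
    · intro p hp hpP
      have hTp : T < (p : ℝ) := by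
        by_contra hc
        apply hpP
        rw [hP, Finset.mem_filter, Finset.mem_range]
        refine ⟨?_, (Finset.mem_filter.1 hp).2⟩
        have := Nat.le_floor (not_lt.1 hc)
        omega
      refine Finset.sum_eq_zero fun i _ => Finset.sum_eq_zero fun n _ => ?_
      rw [Nb_xz hG hT i p hTp]
      ring
  have hR : ∑ i ∈ Finset.range M, (∑ p ∈ P,
      G i (Real.log p / Real.log T) * H (Real.log p / Real.log T) / p) *
        ip X (evQ G T (MvPolynomial.pderiv i Q)) =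
      ∑ i ∈ Finset.range M, ∑ n ∈ X.coeff.support,
        X.coeff n * Y i n * ∑ p ∈ P, xc H T p * xc (G i) T p := by
    refine Finset.sum_congr rfl fun i _ => ?_
    rw [Finset.sum_congr rfl fun p hp => Nb_sq (hPp p hp) (G i) H T]
    unfold ip
    rw [Finset.mul_sum]
    refine Finset.sum_congr rfl fun n _ => ?_
    rw [hYe]
    ring
  rw [← hP, hL, hR, ← Finset.sum_sub_distrib, Finset.mul_sum]
  refine (Finset.abs_sum_le_sum_abs _ _).trans ?_
  refine Finset.sum_le_sum fun i _ => ?_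
  rw [← Finset.sum_sub_distrib]
  refine (Finset.abs_sum_le_sum_abs _ _).trans ?_
  have hX'n : ∀ n, 0 ≤ X'.coeff n := fun n => (abs_nonneg _).trans (hXX n)
  have hYn : ∀ n, 0 ≤ Y i n := fun n => by rw [← hYe]; exact hpos i n
  have hsub : X.coeff.support ⊆ X'.coeff.support := by
    intro n hn
    rw [Finsupp.mem_support_iff] at hn ⊢
    intro h
    have := hXX n
    rw [h] at this
    exact hn (abs_nonpos_iff.1 this)
  have hstep : ∀ n ∈ X.coeff.support,
      |X.coeff n * Y i n * ∑ p ∈ P, xc H T p * xc (G i) T p * ((padicValNat p n : ℝ) + 1)⁻¹ -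
        X.coeff n * Y i n * ∑ p ∈ P, xc H T p * xc (G i) T p| ≤ ε / a * (X'.coeff n * Y i n) := by
    intro n hn
    have hn0 : n ≠ 0 := by
      rintro rfl
      exact (Finsupp.mem_support_iff.1 hn) hX0
    by_cases hy : Y i n = 0
    · rw [hy]
      simp
    have hnT : (n : ℝ) ≤ T := hS i n (by rw [hYe]; exact hy)
    have he := Nb_err hT ha (hlow i) H hε0 (hε i) hn0 hnT P hPp
    have e1 : X.coeff n * Y i n * ∑ p ∈ P, xc H T p * xc (G i) T p * ((padicValNat p n : ℝ) + 1)⁻¹ -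
        X.coeff n * Y i n * ∑ p ∈ P, xc H T p * xc (G i) T p =
        X.coeff n * Y i n *
          ∑ p ∈ P, xc H T p * xc (G i) T p * (((padicValNat p n : ℝ) + 1)⁻¹ - 1) := by
      rw [← mul_sub, ← Finset.sum_sub_distrib]
      congr 1
      refine Finset.sum_congr rfl fun p _ => ?_
      ring
    rw [e1, abs_mul, abs_mul, abs_of_nonneg (hYn n)]
    calc |X.coeff n| * Y i n * |∑ p ∈ P, xc H T p * xc (G i) T p * (((padicValNat p n : ℝ) + 1)⁻¹ - 1)|
        ≤ X'.coeff n * Y i n * (ε / a) :=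
          mul_le_mul (mul_le_mul_of_nonneg_right (hXX n) (hYn n)) he (abs_nonneg _)
            (mul_nonneg (hX'n n) (hYn n))
      _ = ε / a * (X'.coeff n * Y i n) := by ring
  refine (Finset.sum_le_sum hstep).trans ?_
  rw [← Finset.mul_sum]
  refine mul_le_mul_of_nonneg_left ?_ (by positivity)
  unfold ip
  simp only [hYe]
  exact Finset.sum_le_sum_of_subset_of_nonneg hsub fun n _ _ => mul_nonneg (hX'n n) (hYn n)

end Pool.Agent.H24.HF
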