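import Mathlib
import Pool.Agent.H24.HF.Defs
import Pool.Agent.H24.HF.Nb
import Pool.Agent.H14.GP.Vc
import Pool.Agent.H14.GP.Vd
import Pool.Agent.H14.GP.Vh

/-!
# Row HFNc (250 lines): the limit of the diagonal inner products

`lim_ip`: for a list `Hs` of continuous bounded functions and `Q` of weighted degree `≤ D`, `θ D/M < 1`:
`ip (∏_{H ∈ Hs} bbW H W T) (evQ G T Q) → constantCoeff (DL M (Hs.map (kp G)) Q)`.

PROOF. (0) Reduction to monomials `Q = monomial m 1` with `∑ j m_j ≤ D`: both sides are linear in `Q` (`ip_add_right`, `map_sum`,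
`DL` linear: `DQ` is linear), the monomials of `Q` satisfy the same bound (`Q.as_sum`).
(1) Facts, eventually in `T > 1`, for a monomial `Q`: the coefficients of `evQ G T Q` are `≥ 0` (a product of powers of `bb (G j) T`,
`G ≥ 0`), and supported on `1 ≤ n ≤ T^{θD/M} ≤ T` (`bb_supp` with `b = θ j/M`, `SuppLe.pow`, `SuppLe.prod`); `pderiv i (monomial m 1) =
monomial (m - single i 1) (m i)` is a nonnegative multiple of a monomial of weighted degree `≤ D` again (for `i = 0` or `i ≥ M`: `bb (G i) T = 0`;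
still `≥ 0` and of weighted degree `≤ D`).
(2) Induction on the list, for all lists of continuous bounded functions and all such `m` SIMULTANEOUSLY, the statement
`L(Hs)`: for every `m` with `∑ j m_j ≤ D`, the limit holds.
`Hs = []`: `ip 1 (evQ (monomial m 1)) = (evQ (monomial m 1))_1` = `1` if `m = 0` (`evQ 1 = 1`), and `0` if `m ≠ 0` (every `n` in the support of
`bb (G j) T` is a prime, so `≥ 2`; the support of the product has `n ≥ 2`); and `constantCoeff (monomial m 1) = [m = 0]`.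
`Hs = H :: l`: `X = ∏_{l} bbW`, `X' = ∏_{l} bbW |H'|` (coefficients: `|X_n| ≤ X'_n`: induction on the list, triangle inequality in
`MonoidAlgebra.coeff_mul`; or lemma `abs_coeff_mul_le`); `ibp_step` gives
`ip (bbW H * X) (evQ Q) = ∑_i kT_i ip X (evQ ∂_iQ) + O(ε_T/a ∑_i ip X' (evQ ∂_iQ))`, `kT_i → kp G H i` (`mertens_primes` with
`g = G_i H`: continuous, zero for `x ≤ a` and `x ≥ θ`), `ip X (evQ ∂_iQ) → constantCoeff (DL l ∂_iQ)` by `L(l)`, and `ip X' (evQ ∂_iQ)` converges
by `L(l.map |·|)` (same length: so do the induction on the length, or prove `L` for `l` and `l.map abs` together), hence is bounded;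
`ε_T = B B' T^{-a} → 0` bounds `|h(p) x_i(p)| = |H G_i|(u_p)/p` (zero unless `p > T^a`). The limit is
`∑_i kp_i constantCoeff (DL l ∂_iQ) = constantCoeff (DL l (DQ κ Q)) = constantCoeff (DL (κ :: l) Q)`.
-/

open MeasureTheory Set Filter Topology
open scoped Real ContDiff ComplexConjugate

namespace Pool.Agent.H24.HF

open Pool.Agent.H6 Pool.Agent.H14.GP

lemma Nc_coeff_mul {X Y : DPoly} {S S' : Finset ℕ} (hS : X.coeff.support ⊆ S)
    (hS' : Y.coeff.support ⊆ S') (n : ℕ) : (X * Y).coeff n =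
      ∑ m ∈ S, ∑ k ∈ S', if m * k = n then X.coeff m * Y.coeff k else 0 := by
  rw [MonoidAlgebra.coeff_mul, Finsupp.sum_of_support_subset _ hS _ (by simp)]
  refine Finset.sum_congr rfl fun m _ => ?_
  rw [Finsupp.sum_of_support_subset _ hS' _ (by simp)]

lemma Nc_nn_mul {X Y : DPoly} (hX : ∀ n, 0 ≤ X.coeff n) (hY : ∀ n, 0 ≤ Y.coeff n) (n : ℕ) :
    0 ≤ (X * Y).coeff n := by
  rw [Nc_coeff_mul (Finset.Subset.refl _) (Finset.Subset.refl _)]
  refine Finset.sum_nonneg fun m _ => Finset.sum_nonneg fun k _ => ?_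
  split_ifs
  · exact mul_nonneg (hX m) (hY k)
  · exact le_rfl

lemma Nc_nn_one (n : ℕ) : 0 ≤ (1 : DPoly).coeff n := by
  rw [MonoidAlgebra.one_def, MonoidAlgebra.coeff_single_apply]
  split_ifs <;> norm_num

lemma Nc_nn_pow {X : DPoly} (hX : ∀ n, 0 ≤ X.coeff n) (k : ℕ) : ∀ n, 0 ≤ (X ^ k).coeff n := by
  induction k with
  | zero =>
    rw [pow_zero]
    exact Nc_nn_one
  | succ k ih =>
    rw [pow_succ]
    exact Nc_nn_mul ih hX

lemma Nc_nn_prod {ι : Type*} (s : Finset ι) (X : ι → DPoly)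
    (h : ∀ i ∈ s, ∀ n, 0 ≤ (X i).coeff n) : ∀ n, 0 ≤ (∏ i ∈ s, X i).coeff n := by
  classical
  induction s using Finset.induction_on with
  | empty =>
    rw [Finset.prod_empty]
    exact Nc_nn_one
  | insert a s ha ih =>
    rw [Finset.prod_insert ha]
    exact Nc_nn_mul (h a (Finset.mem_insert_self a s))
      (ih fun i hi => h i (Finset.mem_insert_of_mem hi))

lemma Nc_nn_bb {G : ℝ → ℝ} (hG : ∀ x, 0 ≤ G x) (T : ℝ) (n : ℕ) : 0 ≤ (Pool.Agent.H14.GP.bb G T).coeff n := by
  rw [bb_coeff]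
  split_ifs
  · exact mul_nonneg (hG _) (Real.rpow_nonneg (Nat.cast_nonneg n) _)
  · exact le_rfl

lemma Nc_abs_mul {X Y X' Y' : DPoly} (hX : ∀ n, |X.coeff n| ≤ X'.coeff n)
    (hY : ∀ n, |Y.coeff n| ≤ Y'.coeff n) (n : ℕ) : |(X * Y).coeff n| ≤ (X' * Y').coeff n := by
  classical
  rw [Nc_coeff_mul (X := X) (Y := Y) (S := X.coeff.support ∪ X'.coeff.support)
      (S' := Y.coeff.support ∪ Y'.coeff.support) Finset.subset_union_left
      Finset.subset_union_left,
    Nc_coeff_mul (X := X') (Y := Y') (S := X.coeff.support ∪ X'.coeff.support)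
      (S' := Y.coeff.support ∪ Y'.coeff.support) Finset.subset_union_right
      Finset.subset_union_right]
  refine (Finset.abs_sum_le_sum_abs _ _).trans (Finset.sum_le_sum fun m _ => ?_)
  refine (Finset.abs_sum_le_sum_abs _ _).trans (Finset.sum_le_sum fun k _ => ?_)
  split_ifs
  · rw [abs_mul]
    exact mul_le_mul (hX m) (hY k) (abs_nonneg _) ((abs_nonneg _).trans (hX m))
  · rw [abs_zero]

lemma Nc_mul_zero {X Y : DPoly} (hX : X.coeff 0 = 0) (hY : Y.coeff 0 = 0) :
    (X * Y).coeff 0 = 0 := by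
  rw [Nc_coeff_mul (Finset.Subset.refl _) (Finset.Subset.refl _)]
  refine Finset.sum_eq_zero fun m _ => Finset.sum_eq_zero fun k _ => ?_
  split_ifs with h
  · rcases Nat.mul_eq_zero.1 h with h | h
    · rw [h, hX, zero_mul]
    · rw [h, hY, mul_zero]
  · rfl

lemma Nc_mul_one {X Y : DPoly} (hX : X.coeff 1 = 0) : (X * Y).coeff 1 = 0 := by
  rw [Nc_coeff_mul (Finset.Subset.refl _) (Finset.Subset.refl _)]
  refine Finset.sum_eq_zero fun m _ => Finset.sum_eq_zero fun k _ => ?_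
  split_ifs with h
  · rw [Nat.eq_one_of_mul_eq_one_right h, hX, zero_mul]
  · rfl

lemma Nc_abs_bb (H : ℝ → ℝ) (W T : ℝ) (n : ℕ) :
    |(bbW H W T).coeff n| ≤ (bbW (fun x => |H x|) W T).coeff n := by
  unfold bbW
  rw [bb_coeff, bb_coeff]
  split_ifs
  · rw [abs_mul, abs_of_nonneg (Real.rpow_nonneg (Nat.cast_nonneg n) _)]
  · rw [abs_zero]

lemma Nc_abs_list (W T : ℝ) (l : List (ℝ → ℝ)) : ∀ n : ℕ,
    |((l.map fun H => bbW H W T).prod).coeff n| ≤
      (((l.map fun H x => |H x|).map fun H => bbW H W T).prod).coeff n := by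
  induction l with
  | nil =>
    intro n
    simp only [List.map_nil, List.prod_nil]
    rw [abs_of_nonneg (Nc_nn_one n)]
  | cons H l ih =>
    intro n
    simp only [List.map_cons, List.prod_cons]
    exact Nc_abs_mul (fun n => Nc_abs_bb H W T n) ih n

lemma Nc_zero_list (W T : ℝ) (l : List (ℝ → ℝ)) :
    ((l.map fun H => bbW H W T).prod).coeff 0 = 0 := by
  induction l with
  | nil =>
    simp only [List.map_nil, List.prod_nil]
    exact suppLe_one.coeff_zero
  | cons H l ih =>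
    simp only [List.map_cons, List.prod_cons]
    refine Nc_mul_zero ?_ ih
    unfold bbW
    exact bb_coeff_zero _ _

lemma Nc_ev (G : ℕ → ℝ → ℝ) (T : ℝ) (m : ℕ →₀ ℕ) :
    evQ G T (MvPolynomial.monomial m 1) = ∏ i ∈ m.support, Pool.Agent.H14.GP.bb (G i) T ^ m i := by
  unfold evQ
  rw [MvPolynomial.aeval_monomial, map_one, one_mul]
  rfl

lemma Nc_ev_c (G : ℕ → ℝ → ℝ) (T : ℝ) (m : ℕ →₀ ℕ) (c : ℝ) :
    evQ G T (MvPolynomial.monomial m c) = c • evQ G T (MvPolynomial.monomial m 1) := by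
  rw [← map_smul, MvPolynomial.smul_monomial, smul_eq_mul, mul_one]

lemma Nc_nn_ev {M : ℕ} {θ : ℝ} {G : ℕ → ℝ → ℝ} (hG : Cells1 M θ G) (T : ℝ) (m : ℕ →₀ ℕ) (n : ℕ) :
    0 ≤ (evQ G T (MvPolynomial.monomial m 1)).coeff n := by
  rw [Nc_ev]
  exact Nc_nn_prod _ _ (fun i _ => Nc_nn_pow (Nc_nn_bb (hG.nonneg i) T) _) n

lemma Nc_supp {M : ℕ} {θ : ℝ} {G : ℕ → ℝ → ℝ} (hG : Cells1 M θ G) {T : ℝ} (hT : 1 < T)
    (m : ℕ →₀ ℕ) : SuppLe (T ^ (θ / M * ((m.sum fun j e => j * e : ℕ) : ℝ)))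
      (evQ G T (MvPolynomial.monomial m 1)) := by
  rw [Nc_ev]
  have h1 : ∀ i ∈ m.support, SuppLe ((T ^ (θ * i / M)) ^ m i)
      (Pool.Agent.H14.GP.bb (G i) T ^ m i) := by
    intro i _
    refine (bb_supp (fun x hx => ?_) hT).pow (m i)
    by_contra h
    exact absurd (hG.cell i x h).2 (not_lt.2 hx.le)
  have h2 := SuppLe.prod m.support h1
  have h3 : ∏ i ∈ m.support, (T ^ (θ * i / M)) ^ m i =
      T ^ (θ / M * ((m.sum fun j e => j * e : ℕ) : ℝ)) := by
    rw [Finsupp.sum, Nat.cast_sum, Finset.mul_sum, Real.rpow_sum_of_pos (by linarith)]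
    refine Finset.prod_congr rfl fun i _ => ?_
    rw [← Real.rpow_natCast, ← Real.rpow_mul (by linarith)]
    congr 1
    push_cast
    ring
  rwa [h3] at h2

lemma Nc_wt {m' m : ℕ →₀ ℕ} (h : m' ≤ m) :
    (m'.sum fun j e => j * e) ≤ m.sum fun j e => j * e := by
  rw [Finsupp.sum_of_support_subset m' (Finsupp.support_mono h) _ (by simp), Finsupp.sum]
  exact Finset.sum_le_sum fun i _ => Nat.mul_le_mul_left _ (h i)

lemma Nc_lin {D : ℕ} {φ : QQ →ₗ[ℝ] ℝ} {G : ℕ → ℝ → ℝ} {X : ℝ → DPoly}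
    (h : ∀ m : ℕ →₀ ℕ, (m.sum fun j e => j * e) ≤ D →
      Tendsto (fun T => ip (X T) (evQ G T (MvPolynomial.monomial m 1))) atTop
        (𝓝 (φ (MvPolynomial.monomial m 1))))
    {Q : QQ} (hQ : WDeg D Q) : Tendsto (fun T => ip (X T) (evQ G T Q)) atTop (𝓝 (φ Q)) := by
  have e : Q = ∑ m ∈ Q.support, Q.coeff m • MvPolynomial.monomial m (1 : ℝ) := by
    conv_lhs => rw [Q.as_sum]
    refine Finset.sum_congr rfl fun m _ => ?_
    rw [MvPolynomial.smul_monomial, smul_eq_mul, mul_one]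
  have h1 : ∀ T, ip (X T) (evQ G T Q) =
      ∑ m ∈ Q.support, Q.coeff m * ip (X T) (evQ G T (MvPolynomial.monomial m 1)) := by
    intro T
    conv_lhs => rw [e, map_sum]
    rw [ip_comm, ip_sum_left]
    refine Finset.sum_congr rfl fun m _ => ?_
    rw [map_smul, ip_smul_left, ip_comm]
  have h2 : φ Q = ∑ m ∈ Q.support, Q.coeff m * φ (MvPolynomial.monomial m 1) := by
    conv_lhs => rw [e, map_sum]
    refine Finset.sum_congr rfl fun m _ => ?_
    rw [map_smul, smul_eq_mul]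
  rw [h2]
  simp only [h1]
  exact tendsto_finset_sum _ fun m hm => (h m (hQ m hm)).const_mul _

lemma Nc_DQ_add (M : ℕ) (κ : ℕ → ℝ) (P Q : QQ) : DQ M κ (P + Q) = DQ M κ P + DQ M κ Q := by
  unfold DQ
  rw [← Finset.sum_add_distrib]
  refine Finset.sum_congr rfl fun i _ => ?_
  rw [map_add, smul_add]

lemma Nc_DQ_smul (M : ℕ) (κ : ℕ → ℝ) (c : ℝ) (Q : QQ) : DQ M κ (c • Q) = c • DQ M κ Q := by
  unfold DQ
  rw [Finset.smul_sum]
  refine Finset.sum_congr rfl fun i _ => ?_
  rw [Derivation.map_smul, smul_comm]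

lemma Nc_DL_add (M : ℕ) (l : List (ℕ → ℝ)) : ∀ P Q : QQ,
    DL M l (P + Q) = DL M l P + DL M l Q := by
  induction l with
  | nil =>
    intro P Q
    rfl
  | cons κ l ih =>
    intro P Q
    show DL M l (DQ M κ (P + Q)) = DL M l (DQ M κ P) + DL M l (DQ M κ Q)
    rw [Nc_DQ_add, ih]

lemma Nc_DL_smul (M : ℕ) (l : List (ℕ → ℝ)) : ∀ (c : ℝ) (Q : QQ),
    DL M l (c • Q) = c • DL M l Q := by
  induction l with
  | nil =>
    intro c Q
    rfl
  | cons κ l ih =>
    intro c Q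
    show DL M l (DQ M κ (c • Q)) = c • DL M l (DQ M κ Q)
    rw [Nc_DQ_smul, ih]

/-- the constant coefficient of the iterated derivative, as a linear map -/
noncomputable def Nc_phi (M : ℕ) (l : List (ℕ → ℝ)) : QQ →ₗ[ℝ] ℝ where
  toFun Q := MvPolynomial.constantCoeff (DL M l Q)
  map_add' P Q := by rw [Nc_DL_add, map_add]
  map_smul' c Q := by rw [Nc_DL_smul, MvPolynomial.constantCoeff_smul, RingHom.id_apply]

lemma Nc_phi_cons (M : ℕ) (κ : ℕ → ℝ) (l : List (ℕ → ℝ)) (Q : QQ) :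
    Nc_phi M (κ :: l) Q = ∑ i ∈ Finset.range M, κ i * Nc_phi M l (MvPolynomial.pderiv i Q) := by
  have h : Nc_phi M (κ :: l) Q = Nc_phi M l (DQ M κ Q) := rfl
  rw [h]
  unfold DQ
  rw [map_sum]
  refine Finset.sum_congr rfl fun i _ => ?_
  rw [map_smul, smul_eq_mul]

lemma Nc_bdG {M : ℕ} {θ : ℝ} {G : ℕ → ℝ → ℝ} (hG : Cells1 M θ G) :
    ∃ B' : ℝ, 0 ≤ B' ∧ ∀ i x, |G i x| ≤ B' := by
  have h1 : ∀ i, ∃ C : ℝ, 0 ≤ C ∧ ∀ x, |G i x| ≤ C := by
    intro i
    have hc : HasCompactSupport (G i) := by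
      refine HasCompactSupport.intro
        (isCompact_Icc (a := θ * ((i : ℝ) - 1) / M) (b := θ * i / M)) fun x hx => ?_
      by_contra h
      have h2 := hG.cell i x h
      exact hx ⟨h2.1.le, h2.2.le⟩
    obtain ⟨C, hC⟩ := (hG.smooth i).continuous.bounded_above_of_compact_support hc
    exact ⟨C, (norm_nonneg _).trans (hC 0), fun x => by
      rw [← Real.norm_eq_abs]
      exact hC x⟩
  choose C hC0 hC using h1
  have h2 : 0 ≤ ∑ i ∈ Finset.range M, C i := Finset.sum_nonneg fun i _ => hC0 i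
  refine ⟨∑ i ∈ Finset.range M, C i, h2, fun i x => ?_⟩
  by_cases hi : i < M
  · exact (hC i x).trans (Finset.single_le_sum (fun j _ => hC0 j) (Finset.mem_range.2 hi))
  · rw [hG.out i (Or.inr (not_lt.1 hi)) x, abs_zero]
    exact h2

lemma Nc_eps {G : ℕ → ℝ → ℝ} {a : ℝ} (hlow : ∀ j x, x ≤ a → G j x = 0) {H : ℝ → ℝ} {B B' : ℝ}
    (hB : ∀ x, |H x| ≤ B) (hB' : ∀ i x, |G i x| ≤ B') {T : ℝ} (hT : 1 < T) (i p : ℕ)
    (hp : p.Prime) : |xc H T p * xc (G i) T p| ≤ B * B' * T ^ (-a) := by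
  have hB0 : 0 ≤ B := (abs_nonneg _).trans (hB 0)
  have hB0' : 0 ≤ B' := (abs_nonneg _).trans (hB' 0 0)
  have hp0 : (0 : ℝ) < p := by exact_mod_cast hp.pos
  have hT0 : (0 : ℝ) < T := by linarith
  have hlog : 0 < Real.log T := Real.log_pos hT
  have hTa : 0 ≤ T ^ (-a) := Real.rpow_nonneg hT0.le _
  unfold xc
  by_cases hu : Real.log p / Real.log T ≤ a
  · rw [hlow i _ hu, zero_mul, mul_zero, abs_zero]
    exact mul_nonneg (mul_nonneg hB0 hB0') hTa
  · rw [not_le, lt_div_iff₀ hlog] at hu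
    have h1 : T ^ a ≤ p := by
      rw [← Real.log_le_log_iff (Real.rpow_pos_of_pos hT0 a) hp0, Real.log_rpow hT0]
      exact hu.le
    have h2 : (p : ℝ) ^ (-(1 / 2) : ℝ) * (p : ℝ) ^ (-(1 / 2) : ℝ) = (p : ℝ)⁻¹ := by
      rw [← Real.rpow_add hp0, ← Real.rpow_neg_one]
      norm_num
    have h3 : (p : ℝ)⁻¹ ≤ T ^ (-a) := by
      rw [Real.rpow_neg hT0.le]
      exact inv_anti₀ (Real.rpow_pos_of_pos hT0 a) h1
    have h4 : 0 ≤ (p : ℝ)⁻¹ := inv_nonneg.2 hp0.le
    rw [mul_mul_mul_comm, h2, abs_mul, abs_mul, abs_of_nonneg h4]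
    exact mul_le_mul (mul_le_mul (hB _) (hB' _ _) (abs_nonneg _) hB0) h3 h4
      (mul_nonneg hB0 hB0')

lemma Nc_nil (G : ℕ → ℝ → ℝ) (M : ℕ) (T : ℝ) (m : ℕ →₀ ℕ) :
    ip 1 (evQ G T (MvPolynomial.monomial m 1)) = Nc_phi M [] (MvPolynomial.monomial m 1) := by
  have h1 : ip 1 (evQ G T (MvPolynomial.monomial m 1)) =
      (evQ G T (MvPolynomial.monomial m 1)).coeff 1 := by
    rw [MonoidAlgebra.one_def, ip_single_left, one_mul]
  have h2 : Nc_phi M [] (MvPolynomial.monomial m 1) =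
      MvPolynomial.constantCoeff (MvPolynomial.monomial m (1 : ℝ)) := rfl
  rw [h1, h2, MvPolynomial.constantCoeff_monomial]
  by_cases hm : m = 0
  · rw [if_pos hm, hm, Nc_ev, Finsupp.support_zero, Finset.prod_empty, MonoidAlgebra.one_def,
      MonoidAlgebra.coeff_single_apply, if_pos rfl]
  · rw [if_neg hm]
    obtain ⟨j, hj⟩ : ∃ j, j ∈ m.support := by
      rw [← Finset.nonempty_def, Finsupp.support_nonempty_iff]
      exact hm
    rw [Nc_ev, ← Finset.mul_prod_erase _ _ hj]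
    obtain ⟨k, hk⟩ := Nat.exists_eq_succ_of_ne_zero (Finsupp.mem_support_iff.1 hj)
    rw [hk, Nat.succ_eq_add_one, pow_succ', mul_assoc]
    refine Nc_mul_one ?_
    rw [bb_coeff, if_neg]
    rintro ⟨-, h⟩
    exact Nat.not_prime_one h

lemma Nc_main {M : ℕ} {θ : ℝ} {G : ℕ → ℝ → ℝ} (hG : Cells1 M θ G) {W : ℝ} (hW : 1 ≤ W) {B : ℝ}
    {D : ℕ} (hD : θ * D / M < 1) (N : ℕ) : ∀ Hs : List (ℝ → ℝ), Hs.length = N →
    (∀ H ∈ Hs, Continuous H) → (∀ H ∈ Hs, ∀ x, |H x| ≤ B) →
    ∀ m : ℕ →₀ ℕ, (m.sum fun j e => j * e) ≤ D →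
      Tendsto (fun T => ip ((Hs.map fun H => bbW H W T).prod)
        (evQ G T (MvPolynomial.monomial m 1))) atTop
        (𝓝 (Nc_phi M (Hs.map (kp G)) (MvPolynomial.monomial m 1))) := by
  induction N with
  | zero =>
    intro Hs hlen _ _ m _
    rw [List.length_eq_zero_iff] at hlen
    subst hlen
    simp only [List.map_nil, List.prod_nil, Nc_nil G M]
    exact tendsto_const_nhds
  | succ N ih =>
    intro Hs hlen hc hb m hm
    rcases Hs with _ | ⟨H, l⟩
    · simp at hlen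
    rw [List.length_cons, Nat.succ_inj] at hlen
    have hcH : Continuous H := hc H List.mem_cons_self
    have hbH : ∀ x, |H x| ≤ B := hb H List.mem_cons_self
    have hcl : ∀ H' ∈ l, Continuous H' := fun H' h => hc H' (List.mem_cons_of_mem _ h)
    have hbl : ∀ H' ∈ l, ∀ x, |H' x| ≤ B := fun H' h => hb H' (List.mem_cons_of_mem _ h)
    have ih1 := ih l hlen hcl hbl
    have ih2 := ih (l.map fun H' x => |H' x|) (by rw [List.length_map, hlen])
      (by
        intro H' h
        obtain ⟨H₁, h1, rfl⟩ := List.mem_map.1 h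
        exact (hcl H₁ h1).abs)
      (by
        intro H' h
        obtain ⟨H₁, h1, rfl⟩ := List.mem_map.1 h
        intro x
        rw [abs_abs]
        exact hbl H₁ h1 x)
    obtain ⟨a, ha, hlow⟩ := hG.low
    obtain ⟨B', hB'0, hB'⟩ := Nc_bdG hG
    have hM0 : (0 : ℝ) < M := by
      have := hG.M_pos
      positivity
    have hpd : ∀ i, MvPolynomial.pderiv i (MvPolynomial.monomial m (1 : ℝ)) =
        MvPolynomial.monomial (m - Finsupp.single i 1) (m i : ℝ) := by
      intro i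
      rw [MvPolynomial.pderiv_monomial, one_mul]
    have hwt : ∀ i, ((m - Finsupp.single i 1).sum fun j e => j * e) ≤ D := fun i =>
      (Nc_wt tsub_le_self).trans hm
    have hWD : ∀ i, WDeg D (MvPolynomial.pderiv i (MvPolynomial.monomial m (1 : ℝ))) := by
      intro i m' hm'
      rw [hpd] at hm'
      have h1 := MvPolynomial.support_monomial_subset hm'
      rw [Finset.mem_singleton] at h1
      rw [h1]
      exact hwt i
    have hX : ∀ i, Tendsto (fun T => ip ((l.map fun H => bbW H W T).prod)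
        (evQ G T (MvPolynomial.pderiv i (MvPolynomial.monomial m 1)))) atTop
        (𝓝 (Nc_phi M (l.map (kp G)) (MvPolynomial.pderiv i (MvPolynomial.monomial m 1)))) :=
      fun i => Nc_lin ih1 (hWD i)
    have hX' : ∀ i, Tendsto (fun T => ip (((l.map fun H' x => |H' x|).map
        fun H => bbW H W T).prod)
        (evQ G T (MvPolynomial.pderiv i (MvPolynomial.monomial m 1)))) atTop
        (𝓝 (Nc_phi M ((l.map fun H' x => |H' x|).map (kp G))
          (MvPolynomial.pderiv i (MvPolynomial.monomial m 1)))) :=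
      fun i => Nc_lin ih2 (hWD i)
    have hk : ∀ i, Tendsto (fun T : ℝ => ∑ p ∈ (Finset.range (⌊T⌋₊ + 1)).filter Nat.Prime,
        G i (Real.log p / Real.log T) * H (Real.log p / Real.log T) / p) atTop
        (𝓝 (kp G H i)) := by
      intro i
      refine mertens_primes (g := fun x => G i x * H x) ((hG.smooth i).continuous.mul hcH) ha
        le_rfl (fun x hx => ?_) (fun x hx => ?_)
      · rw [hlow i x hx, zero_mul]
      · have h0 : G i x = 0 := by
          by_cases hi : i < M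
          · by_contra h
            have h1 := (hG.cell i x h).2
            have h2 : θ * i / M ≤ θ := by
              rw [div_le_iff₀ hM0]
              exact mul_le_mul_of_nonneg_left (by exact_mod_cast hi.le) hG.θ_pos.le
            have h3 := hG.θ_lt
            linarith
          · exact hG.out i (Or.inr (not_lt.1 hi)) x
        rw [h0, zero_mul]
    have hg := tendsto_finset_sum (Finset.range M) fun i (_ : i ∈ Finset.range M) =>
      (hk i).mul (hX i)
    have hr : Tendsto (fun T : ℝ => B * B' * T ^ (-a) / a * ∑ i ∈ Finset.range M,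
        ip (((l.map fun H' x => |H' x|).map fun H => bbW H W T).prod)
          (evQ G T (MvPolynomial.pderiv i (MvPolynomial.monomial m 1)))) atTop (𝓝 0) := by
      have h1 : Tendsto (fun T : ℝ => B * B' * T ^ (-a) / a) atTop (𝓝 0) := by
        have h2 := ((tendsto_rpow_neg_atTop ha).const_mul (B * B')).div_const a
        rwa [mul_zero, zero_div] at h2
      have h3 := h1.mul (tendsto_finset_sum (Finset.range M)
        fun i (_ : i ∈ Finset.range M) => hX' i)
      rwa [zero_mul] at h3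
    have hdiff : Tendsto (fun T : ℝ => ip (((H :: l).map fun H => bbW H W T).prod)
        (evQ G T (MvPolynomial.monomial m 1)) - ∑ i ∈ Finset.range M,
          (∑ p ∈ (Finset.range (⌊T⌋₊ + 1)).filter Nat.Prime,
            G i (Real.log p / Real.log T) * H (Real.log p / Real.log T) / p) *
          ip ((l.map fun H => bbW H W T).prod)
            (evQ G T (MvPolynomial.pderiv i (MvPolynomial.monomial m 1)))) atTop (𝓝 0) := by
      refine squeeze_zero_norm' ?_ hr
      filter_upwards [eventually_gt_atTop 1] with T hT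
      rw [List.map_cons, List.prod_cons, Real.norm_eq_abs]
      refine ibp_step hG ha hlow hT hW H _ (Nc_zero_list W T l) (Nc_abs_list W T l) ?_ ?_
        (fun i p hp => Nc_eps hlow hbH hB' hT i p hp)
      · intro i n
        rw [hpd, Nc_ev_c, MonoidAlgebra.coeff_smul, Finsupp.smul_apply, smul_eq_mul]
        exact mul_nonneg (Nat.cast_nonneg _) (Nc_nn_ev hG T _ n)
      · intro i n hn
        rw [hpd, Nc_ev_c, MonoidAlgebra.coeff_smul, Finsupp.smul_apply, smul_eq_mul] at hn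
        have h1 := (Nc_supp hG hT _ n (right_ne_zero_of_mul hn)).2
        refine h1.trans ?_
        have h2 : θ / M * (((m - Finsupp.single i 1).sum fun j e => j * e : ℕ) : ℝ) ≤ 1 := by
          have h3 : (((m - Finsupp.single i 1).sum fun j e => j * e : ℕ) : ℝ) ≤ D := by
            exact_mod_cast hwt i
          have h4 : 0 ≤ θ / M := div_nonneg hG.θ_pos.le hM0.le
          calc θ / M * (((m - Finsupp.single i 1).sum fun j e => j * e : ℕ) : ℝ)
              ≤ θ / M * D := mul_le_mul_of_nonneg_left h3 h4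
            _ = θ * D / M := by ring
            _ ≤ 1 := hD.le
        calc T ^ (θ / M * (((m - Finsupp.single i 1).sum fun j e => j * e : ℕ) : ℝ))
            ≤ T ^ (1 : ℝ) := Real.rpow_le_rpow_of_exponent_le hT.le h2
          _ = T := Real.rpow_one T
    have hfin := hdiff.add hg
    rw [List.map_cons, Nc_phi_cons]
    simp only [sub_add_cancel, zero_add] at hfin
    exact hfin

theorem lim_ip {M : ℕ} {θ : ℝ} {G : ℕ → ℝ → ℝ} (hG : Cells1 M θ G) {W : ℝ} (hW : 1 ≤ W) {Hs : List (ℝ → ℝ)}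
    (hH : ∀ H ∈ Hs, Continuous H) {B : ℝ} (hB : ∀ H ∈ Hs, ∀ x, |H x| ≤ B) {D : ℕ} (hD : θ * D / M < 1) {Q : QQ}
    (hQ : WDeg D Q) :
    Tendsto (fun T => ip ((Hs.map fun H => bbW H W T).prod) (evQ G T Q)) atTop
      (𝓝 (MvPolynomial.constantCoeff (DL M (Hs.map (kp G)) Q))) := by
  have h := Nc_lin (φ := Nc_phi M (Hs.map (kp G)))
    (Nc_main hG hW hD Hs.length Hs rfl hH hB) hQ
  exact h

end Pool.Agent.H24.HF
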