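import Mathlib
import Pool.Agent.H24.HF.Defs

/-!
# Row HFNe (160 lines): algebra of the Gaussian functional and the iterated derivations (MvPolynomial only)

`DL_append`, `DL_replicate`: induction on the list.
`kp_cell`: `∫_{x>0} G_j(x) G_i(x)/x dx = [i = j] sM M j`: for `i ≠ j` the integrand is `0` (for `1 ≤ i, j < M` the open intervals
`(θ(j-1)/M, θ j/M)` are disjoint by `Cells1.cell`; if `i` or `j` is out of range `G = 0`: `Cells1.out`); for `i = j` it is `G_j^2/x`, `Cells1.norm`.
`DQ_cell`: `DQ M (kp G (G i)) Q = sM M i • pderiv i Q` (`kp_cell`; for `i ≥ M` both sides are `0`).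
`DK_rename`: `pderiv (inr j) (rename inl R) = 0` (`MvPolynomial.pderiv_eq_zero_of_notMem_vars` or induction on `R`), `pderiv (inr j) (rename inr Q) =
rename inr (pderiv j Q)` (`MvPolynomial.pderiv_rename`), Leibniz.
`EG_cells`: the left side is linear in `Q` (`DL` is linear in `Q`), so is the right side; for `Q = monomial β 1`: with
`ℓ = (toMultiset α).toList`, `DL M (ℓ.map (kp G ∘ G)) = ∏_{i ∈ ℓ} (s_i ∂_i)` applied to `monomial β 1`. Prove by induction on a list `ℓ` of indices:
`constantCoeff (DL M (ℓ.map fun i => kp G (G i)) (monomial β 1)) = if β = ℓ.toFinsupp-count then ∏ (β_j)! s_j^{β_j} else 0`, i.e.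
`= mval (sM M) (α ⊕ β)` where `α j = ℓ.count j`: step: `DQ (kp G (G i)) (monomial β 1) = (s_i β_i) monomial (β - single i 1) 1`, and
`mval(α + e_i, β) = s_i β_i mval(α, β - e_i)` if `β_i ≥ 1`, and `0` if `β_i = 0`.
Right side: `rename inl (monomial α 1) * rename inr (monomial β 1) = monomial (α ⊕ β) 1` (`MvPolynomial.rename_monomial`, `monomial_mul`;
`α.mapDomain Sum.inl + β.mapDomain Sum.inr`), `EG` of it is `mval (sM M) _` (`EG_monomial` in H14/GP/Vk, or `Basis.constr_basis`), and
`mval` unfolds to the product over `inl` variables of `(e! s_j^e)` if the exponents of `inl j`, `inr j` agree for all `j`.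
-/

open MeasureTheory Set Filter Topology
open scoped Real ContDiff ComplexConjugate

namespace Pool.Agent.H24.HF

open Pool.Agent.H6 Pool.Agent.H14.GP

theorem DL_append (M : ℕ) (l l' : List (ℕ → ℝ)) (Q : QQ) : DL M (l ++ l') Q = DL M l' (DL M l Q) := by
  induction l generalizing Q with
  | nil => rfl
  | cons κ l ih => exact ih (DQ M κ Q)

theorem DL_replicate (M : ℕ) (κ : ℕ → ℝ) (j : ℕ) (Q : QQ) : DL M (List.replicate j κ) Q = (DQ M κ)^[j] Q := by
  induction j generalizing Q with
  | zero => rfl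
  | succ j ih => exact ih (DQ M κ Q)

theorem kp_cell {M : ℕ} {θ : ℝ} {G : ℕ → ℝ → ℝ} (hG : Cells1 M θ G) (i j : ℕ) :
    kp G (G i) j = if i = j then sM M j else 0 := by
  unfold kp
  by_cases hij : i = j
  · subst hij
    rw [if_pos rfl]
    unfold sM
    by_cases h : 1 ≤ i ∧ i < M
    · rw [if_pos h, ← hG.norm i h.1 h.2]
      refine integral_congr_ae (Filter.Eventually.of_forall fun x => ?_)
      simp only
      rw [pow_two]
    · rw [if_neg h]
      have h0 : ∀ x, G i x = 0 := hG.out i (by omega)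
      simp [h0]
  · rw [if_neg hij]
    have h0 : ∀ x, G j x * G i x / x = 0 := by
      intro x
      by_cases h1 : G j x = 0
      · rw [h1, zero_mul, zero_div]
      by_cases h2 : G i x = 0
      · rw [h2, mul_zero, zero_div]
      exfalso
      obtain ⟨a1, a2⟩ := hG.cell j x h1
      obtain ⟨b1, b2⟩ := hG.cell i x h2
      have hM : (0 : ℝ) < M := by
        have := hG.M_pos
        exact_mod_cast (by omega : 0 < M)
      have hθ := hG.θ_pos
      have c1 : (j : ℝ) - 1 < i := by
        have h3 := a1.trans b2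
        rw [div_lt_div_iff_of_pos_right hM] at h3
        exact lt_of_mul_lt_mul_left h3 hθ.le
      have c2 : (i : ℝ) - 1 < j := by
        have h3 := b1.trans a2
        rw [div_lt_div_iff_of_pos_right hM] at h3
        exact lt_of_mul_lt_mul_left h3 hθ.le
      have d1 : j < i + 1 := by
        have : (j : ℝ) < i + 1 := by linarith
        exact_mod_cast this
      have d2 : i < j + 1 := by
        have : (i : ℝ) < j + 1 := by linarith
        exact_mod_cast this
      exact hij (by omega)
    simp [h0]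

theorem DK_rename (M : ℕ) (κ : ℕ → ℝ) (R Q : QQ) :
    DK M κ (MvPolynomial.rename Sum.inl R * MvPolynomial.rename Sum.inr Q)
      = MvPolynomial.rename Sum.inl R * MvPolynomial.rename Sum.inr (DQ M κ Q) := by
  classical
  unfold DK DQ
  rw [map_sum, Finset.mul_sum]
  refine Finset.sum_congr rfl fun j _ => ?_
  have h1 : (MvPolynomial.pderiv (Sum.inr j : ℕ ⊕ ℕ)) ((MvPolynomial.rename Sum.inl) R) = 0 := by
    apply MvPolynomial.pderiv_eq_zero_of_notMem_vars
    intro h
    have h2 := MvPolynomial.vars_rename (Sum.inl : ℕ → ℕ ⊕ ℕ) R h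
    rw [Finset.mem_image] at h2
    obtain ⟨a, _, ha⟩ := h2
    cases ha
  rw [MvPolynomial.pderiv_mul, h1, zero_mul, zero_add,
    MvPolynomial.pderiv_rename Sum.inr_injective, map_smul, mul_smul_comm]

theorem Ne_DQ_add (M : ℕ) (κ : ℕ → ℝ) (P Q : QQ) : DQ M κ (P + Q) = DQ M κ P + DQ M κ Q := by
  unfold DQ
  rw [← Finset.sum_add_distrib]
  refine Finset.sum_congr rfl fun j _ => ?_
  rw [map_add, smul_add]

theorem Ne_DQ_smul (M : ℕ) (κ : ℕ → ℝ) (c : ℝ) (P : QQ) : DQ M κ (c • P) = c • DQ M κ P := by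
  unfold DQ
  rw [Finset.smul_sum]
  refine Finset.sum_congr rfl fun j _ => ?_
  rw [Derivation.map_smul, smul_comm]

theorem Ne_DL_add (M : ℕ) (l : List (ℕ → ℝ)) (P Q : QQ) : DL M l (P + Q) = DL M l P + DL M l Q := by
  induction l generalizing P Q with
  | nil => rfl
  | cons κ l ih =>
    change DL M l (DQ M κ (P + Q)) = _
    rw [Ne_DQ_add, ih]
    rfl

theorem Ne_DL_smul (M : ℕ) (l : List (ℕ → ℝ)) (c : ℝ) (P : QQ) : DL M l (c • P) = c • DL M l P := by
  induction l generalizing P with
  | nil => rfl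
  | cons κ l ih =>
    change DL M l (DQ M κ (c • P)) = _
    rw [Ne_DQ_smul, ih]
    rfl

theorem Ne_DQ_cell {M : ℕ} {θ : ℝ} {G : ℕ → ℝ → ℝ} (hG : Cells1 M θ G) (i : ℕ) (Q : QQ) :
    DQ M (kp G (G i)) Q = sM M i • MvPolynomial.pderiv i Q := by
  unfold DQ
  by_cases hi : i < M
  · rw [Finset.sum_eq_single i]
    · rw [kp_cell hG, if_pos rfl]
    · intro j _ hj
      rw [kp_cell hG, if_neg (Ne.symm hj), zero_smul]
    · intro h
      exact absurd (Finset.mem_range.2 hi) h
  · have h0 : sM M i = 0 := by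
      unfold sM
      rw [if_neg (by omega)]
    rw [h0, zero_smul]
    refine Finset.sum_eq_zero fun j hj => ?_
    have hj' := Finset.mem_range.1 hj
    rw [kp_cell hG, if_neg (by omega), zero_smul]

/-- the factor -/
noncomputable def Ne_g (s : ℕ → ℝ) (j e : ℕ) : ℝ := (e.factorial : ℝ) * s j ^ e

theorem Ne_prod (s : ℕ → ℝ) (γ : ℕ →₀ ℕ) (i : ℕ) :
    (γ + Finsupp.single i 1).prod (Ne_g s) = s i * ((γ i : ℝ) + 1) * γ.prod (Ne_g s) := by
  classical
  have h0 : ∀ j, Ne_g s j 0 = 1 := fun j => by simp [Ne_g]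
  have hs1 : (γ + Finsupp.single i 1).support ⊆ insert i γ.support := by
    intro j hj
    rw [Finsupp.mem_support_iff] at hj
    by_cases hji : j = i
    · exact Finset.mem_insert.2 (Or.inl hji)
    · refine Finset.mem_insert.2 (Or.inr (Finsupp.mem_support_iff.2 fun h => hj ?_))
      rw [Finsupp.add_apply, h, Finsupp.single_apply, if_neg (Ne.symm hji), add_zero]
  rw [Finsupp.prod_of_support_subset _ hs1 _ (fun j _ => h0 j),
    Finsupp.prod_of_support_subset γ (Finset.subset_insert i γ.support) _ (fun j _ => h0 j)]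
  rw [← Finset.mul_prod_erase _ _ (Finset.mem_insert_self i γ.support),
    ← Finset.mul_prod_erase (insert i γ.support) (fun x => Ne_g s x (γ x))
      (Finset.mem_insert_self i γ.support)]
  have h1 : ∏ x ∈ (insert i γ.support).erase i, Ne_g s x ((γ + Finsupp.single i 1 : ℕ →₀ ℕ) x) =
      ∏ x ∈ (insert i γ.support).erase i, Ne_g s x (γ x) := by
    refine Finset.prod_congr rfl fun x hx => ?_
    rw [Finsupp.add_apply, Finsupp.single_apply, if_neg (Ne.symm (Finset.ne_of_mem_erase hx)),
      add_zero]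
  rw [h1, Finsupp.add_apply, Finsupp.single_eq_same]
  have h2 : Ne_g s i (γ i + 1) = s i * ((γ i : ℝ) + 1) * Ne_g s i (γ i) := by
    unfold Ne_g
    rw [Nat.factorial_succ, pow_succ]
    push_cast
    ring
  rw [h2]
  ring

theorem Ne_list {M : ℕ} {θ : ℝ} {G : ℕ → ℝ → ℝ} (hG : Cells1 M θ G) (l : List ℕ) (β : ℕ →₀ ℕ) :
    MvPolynomial.constantCoeff (DL M (l.map fun i => kp G (G i)) (MvPolynomial.monomial β (1 : ℝ)))
      = if Multiset.toFinsupp (l : Multiset ℕ) = β then β.prod (Ne_g (sM M)) else 0 := by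
  classical
  induction l generalizing β with
  | nil =>
    change MvPolynomial.constantCoeff (MvPolynomial.monomial β (1 : ℝ)) = _
    rw [MvPolynomial.constantCoeff_monomial]
    have h0 : Multiset.toFinsupp (([] : List ℕ) : Multiset ℕ) = 0 := by simp
    rw [h0]
    by_cases hβ : β = 0
    · rw [if_pos hβ, if_pos hβ.symm, hβ, Finsupp.prod_zero_index]
    · rw [if_neg hβ, if_neg (Ne.symm hβ)]
  | cons i l ih =>
    have h1 : DL M ((i :: l).map fun i => kp G (G i)) (MvPolynomial.monomial β (1 : ℝ)) =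
        (sM M i * β i) • DL M (l.map fun i => kp G (G i))
          (MvPolynomial.monomial (β - Finsupp.single i 1) (1 : ℝ)) := by
      change DL M (l.map fun i => kp G (G i)) (DQ M (kp G (G i)) _) = _
      rw [Ne_DQ_cell hG, MvPolynomial.pderiv_monomial, ← Ne_DL_smul]
      congr 1
      rw [MvPolynomial.smul_monomial, MvPolynomial.smul_monomial, smul_eq_mul, smul_eq_mul, one_mul,
        mul_one]
    have hc : Multiset.toFinsupp ((i :: l : List ℕ) : Multiset ℕ) =
        Multiset.toFinsupp (l : Multiset ℕ) + Finsupp.single i 1 := by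
      rw [← Multiset.cons_coe, ← Multiset.singleton_add, Multiset.toFinsupp_add,
        Multiset.toFinsupp_singleton, add_comm]
    rw [h1, MvPolynomial.constantCoeff_smul, ih, hc, smul_eq_mul]
    by_cases hβ : β i = 0
    · rw [hβ, Nat.cast_zero, mul_zero, zero_mul, if_neg]
      intro h
      rw [← h] at hβ
      simp at hβ
    · have h2 : β - Finsupp.single i 1 + Finsupp.single i 1 = β := by
        ext j
        rw [Finsupp.add_apply, Finsupp.tsub_apply, Finsupp.single_apply]
        split_ifs with hj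
        · subst hj
          omega
        · omega
      by_cases h3 : Multiset.toFinsupp (l : Multiset ℕ) = β - Finsupp.single i 1
      · rw [if_pos h3, if_pos (by rw [h3, h2])]
        conv_rhs => rw [← h2, Ne_prod]
        have h4 : (((β - Finsupp.single i 1 : ℕ →₀ ℕ) i : ℕ) : ℝ) + 1 = β i := by
          rw [Finsupp.tsub_apply, Finsupp.single_eq_same, Nat.cast_sub (by omega)]
          push_cast
          ring
        rw [h4]
      · rw [if_neg h3, mul_zero, if_neg]
        intro h
        apply h3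
        rw [← h]
        ext j
        rw [Finsupp.tsub_apply, Finsupp.add_apply]
        omega

theorem Ne_EG_monomial (s : ℕ → ℝ) (m : (ℕ ⊕ ℕ) →₀ ℕ) :
    EG s (MvPolynomial.monomial m (1 : ℝ)) = mval s m := by
  unfold EG
  have h := (MvPolynomial.basisMonomials (ℕ ⊕ ℕ) ℝ).constr_basis ℝ (fun m => mval s m) m
  rw [MvPolynomial.coe_basisMonomials] at h
  exact h

theorem Ne_mval (s : ℕ → ℝ) (α β : ℕ →₀ ℕ) :
    mval s (Finsupp.mapDomain Sum.inl α + Finsupp.mapDomain Sum.inr β) =
      if α = β then β.prod (Ne_g s) else 0 := by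
  classical
  have hl : ∀ j, (Finsupp.mapDomain Sum.inl α + Finsupp.mapDomain Sum.inr β : (ℕ ⊕ ℕ) →₀ ℕ)
      (Sum.inl j) = α j := by
    intro j
    rw [Finsupp.add_apply, Finsupp.mapDomain_apply Sum.inl_injective,
      Finsupp.mapDomain_of_notMem_range _ _ (by simp), add_zero]
  have hr : ∀ j, (Finsupp.mapDomain Sum.inl α + Finsupp.mapDomain Sum.inr β : (ℕ ⊕ ℕ) →₀ ℕ)
      (Sum.inr j) = β j := by
    intro j
    rw [Finsupp.add_apply, Finsupp.mapDomain_apply Sum.inr_injective,
      Finsupp.mapDomain_of_notMem_range _ _ (by simp), zero_add]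
  unfold mval
  by_cases h : α = β
  · subst h
    rw [if_pos (fun j => by rw [hl, hr]), if_pos rfl, Finsupp.prod_add_index_of_disjoint]
    · rw [Finsupp.prod_mapDomain_index_inj Sum.inl_injective,
        Finsupp.prod_mapDomain_index_inj Sum.inr_injective]
      simp only [Sum.elim_inl, Sum.elim_inr]
      have h1 : (α.prod fun _ _ => (1 : ℝ)) = 1 := by simp [Finsupp.prod]
      rw [h1, mul_one]
      rfl
    · rw [Finsupp.mapDomain_support_of_injective Sum.inl_injective,
        Finsupp.mapDomain_support_of_injective Sum.inr_injective, Finset.disjoint_left]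
      intro x hx hx'
      rw [Finset.mem_image] at hx hx'
      obtain ⟨a, _, rfl⟩ := hx
      obtain ⟨b, _, hb⟩ := hx'
      cases hb
  · rw [if_neg, if_neg h]
    intro h1
    apply h
    ext j
    have := h1 j
    rwa [hl, hr] at this

theorem EG_cells {M : ℕ} {θ : ℝ} {G : ℕ → ℝ → ℝ} (hG : Cells1 M θ G) (α : ℕ →₀ ℕ) (Q : QQ) :
    MvPolynomial.constantCoeff (DL M ((Finsupp.toMultiset α).toList.map fun i => kp G (G i)) Q)
      = EG (sM M) (MvPolynomial.rename Sum.inl (MvPolynomial.monomial α (1 : ℝ)) * MvPolynomial.rename Sum.inr Q) := by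
  classical
  induction Q using MvPolynomial.induction_on' with
  | monomial β a =>
    have h1 : (MvPolynomial.monomial β a : QQ) = a • MvPolynomial.monomial β (1 : ℝ) := by
      rw [MvPolynomial.smul_monomial, smul_eq_mul, mul_one]
    rw [h1, Ne_DL_smul, MvPolynomial.constantCoeff_smul, Ne_list hG, Multiset.coe_toList,
      Finsupp.toMultiset_toFinsupp, map_smul, mul_smul_comm, map_smul]
    congr 1
    rw [MvPolynomial.rename_monomial, MvPolynomial.rename_monomial, MvPolynomial.monomial_mul,
      one_mul, Ne_EG_monomial, Ne_mval]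
  | add P Q hP hQ =>
    rw [Ne_DL_add, map_add, hP, hQ, map_add, mul_add, map_add]

end Pool.Agent.H24.HF
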