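import Mathlib
import Pool.Agent.H24.HF.Defs
import Pool.Agent.H24.HF.Nc
import Pool.Agent.H14.GP.Vb
import Pool.Agent.H14.GP.Vc
import Pool.Agent.H14.GP.Vd

/-!
# Row HFNd (130 lines): the mean value with several long prime sums

`E_T[∏_{H∈Hs} bbW(H)(t) · conj Q(Y)(t)] → (∫v) constantCoeff (DL κs Q)`.
PROOF. `X = ∏ bbW H W T`, `X' = evQ G T Q`. `ev t` is an algebra homomorphism (`map_list_prod`). `X' ` is supported on
`1 ≤ n ≤ T^{θD/M} = T^{1-δ}`, `δ = 1 - θD/M > 0` (for each monomial: `bb_supp`, `SuppLe.pow/prod`; sums: the support of a sum of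
polynomials; constants: support `{1}`), `X_0 = 0` (if `Hs = []` then `X = 1`, coefficient at `0` is `0`; products: `bb_coeff_zero`).
`l1 X ≤ ∏ B (T^W + 1)` (`bb_l1` for `bbW`: `l1 (bb _ (T^W)) ≤ B (T^W + 1)`; `l1_mul_le`), `l1 X' ≤ C (T+1)^E` (`Q` fixed; `|G_j| ≤ B'`), so with `K` large
`mv` gives `E_T[X conj X'] - (∫v) ip X X' → 0`; `lim_ip` gives the limit.
-/

open MeasureTheory Set Filter Topology
open scoped Real ContDiff ComplexConjugate

namespace Pool.Agent.H24.HF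

open Pool.Agent.H6 Pool.Agent.H14.GP

/-- a finitely generated list product of long prime sums has bounded support and `ℓ¹` norm -/
private theorem hfnd_list {B : ℝ} (Hs : List (ℝ → ℝ)) (hB : ∀ H ∈ Hs, ∀ x, |H x| ≤ B) {T W : ℝ} (hT : 1 ≤ T) (hW : 0 ≤ W) :
    (∃ N, SuppLe N ((Hs.map fun H => bbW H W T).prod)) ∧
      l1 ((Hs.map fun H => bbW H W T).prod) ≤ (2 * (|B| + 1)) ^ Hs.length * T ^ (W * Hs.length) := by
  have hT0 : 0 < T := by linarith
  induction Hs with
  | nil =>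
    refine ⟨⟨1, ?_⟩, ?_⟩
    · rw [List.map_nil, List.prod_nil]
      exact suppLe_one
    · rw [List.map_nil, List.prod_nil, l1_one]
      simp
  | cons H l ih =>
    obtain ⟨⟨N, hN⟩, hl⟩ := ih (fun H' h' => hB H' (List.mem_cons_of_mem _ h'))
    have hTW : 1 ≤ T ^ W := Real.one_le_rpow hT hW
    have hTW0 : 0 ≤ T ^ W := by linarith
    rw [List.map_cons, List.prod_cons]
    refine ⟨⟨T ^ W * N, SuppLe.mul ?_ hN⟩, ?_⟩
    · intro n hn
      unfold bbW at hn
      rw [bb_coeff] at hn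
      by_cases h : n ≤ ⌊T ^ W⌋₊ ∧ n.Prime
      · exact ⟨h.2.one_lt.le, (Nat.le_floor_iff hTW0).1 h.1⟩
      · rw [if_neg h] at hn
        exact absurd rfl hn
    · have h1 : l1 (bbW H W T) ≤ 2 * (|B| + 1) * T ^ W := by
        unfold bbW
        have h2 : ∀ x, |(fun x => H (W * x)) x| ≤ |B| + 1 := fun x => by
          have h3 := hB H List.mem_cons_self (W * x)
          have h4 := le_abs_self B
          show |H (W * x)| ≤ |B| + 1
          linarith
        have h3 := bb_l1 h2 hTW0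
        have h4 := abs_nonneg B
        nlinarith
      refine (l1_mul_le _ _).trans ((mul_le_mul h1 hl (l1_nonneg _) (by positivity)).trans (le_of_eq ?_))
      have h2 : W * ((l.length + 1 : ℕ) : ℝ) = W + W * l.length := by
        push_cast
        ring
      rw [List.length_cons, pow_succ, h2, Real.rpow_add hT0]
      ring

private theorem hfnd_bb {M : ℕ} {θ : ℝ} {G : ℕ → ℝ → ℝ} (hG : Cells1 M θ G) (j : ℕ) {T : ℝ} (hT : 1 < T) :
    SuppLe (T ^ (θ * j / M)) (H14.GP.bb (G j) T) := by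
  refine bb_supp (fun x hx => ?_) hT
  by_contra h
  have := (hG.cell j x h).2
  linarith

private theorem hfnd_bound {M : ℕ} {θ : ℝ} {G : ℕ → ℝ → ℝ} (hG : Cells1 M θ G) (j : ℕ) :
    ∃ B, 0 ≤ B ∧ ∀ x, |G j x| ≤ B := by
  have hM : (0 : ℝ) < M := by
    have := hG.M_pos
    exact_mod_cast (by omega : 0 < M)
  obtain ⟨a, ha, hlow⟩ := hG.low
  have hcs : HasCompactSupport (G j) := by
    refine HasCompactSupport.intro (isCompact_Icc (a := a) (b := θ * j / M)) ?_
    intro x hx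
    rw [Set.mem_Icc, not_and_or, not_le, not_le] at hx
    rcases hx with hx | hx
    · exact hlow j x hx.le
    · by_contra h
      have := (hG.cell j x h).2
      linarith
  obtain ⟨B, hB⟩ := (hG.smooth j).continuous.bounded_above_of_compact_support hcs
  exact ⟨B, (norm_nonneg _).trans (hB 0), fun x => hB x⟩

private theorem hfnd_evQ (G : ℕ → ℝ → ℝ) (T : ℝ) (Q : QQ) :
    evQ G T Q = ∑ m ∈ Q.support, Q.coeff m • ∏ j ∈ m.support, H14.GP.bb (G j) T ^ m j := by
  unfold evQ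
  rw [MvPolynomial.aeval_def, MvPolynomial.eval₂_eq]
  refine Finset.sum_congr rfl fun m _ => ?_
  rw [Algebra.smul_def]

private theorem hfnd_supp {M : ℕ} {θ : ℝ} {G : ℕ → ℝ → ℝ} (hG : Cells1 M θ G) {D : ℕ} {Q : QQ}
    (hQ : WDeg D Q) {T : ℝ} (hT : 1 < T) : SuppLe (T ^ (θ * D / M)) (evQ G T Q) := by
  have hT0 : 0 < T := by linarith
  have hM : (0 : ℝ) < M := by
    have := hG.M_pos
    exact_mod_cast (by omega : 0 < M)
  have h1 : ∀ m ∈ Q.support, SuppLe (T ^ (θ * D / M)) (∏ j ∈ m.support, H14.GP.bb (G j) T ^ m j) := by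
    intro m hm
    have h2 := SuppLe.prod m.support (N := fun j => (T ^ (θ * j / M)) ^ m j)
      (X := fun j => H14.GP.bb (G j) T ^ m j) (fun j _ => (hfnd_bb hG j hT).pow _)
    refine h2.mono ?_
    have h3 : ∏ j ∈ m.support, (T ^ (θ * j / M)) ^ m j = T ^ (∑ j ∈ m.support, θ * j / M * m j) := by
      rw [Real.rpow_sum_of_pos hT0]
      refine Finset.prod_congr rfl fun j _ => ?_
      rw [Real.rpow_mul_natCast hT0.le]
    rw [h3]
    refine Real.rpow_le_rpow_of_exponent_le hT.le ?_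
    have h4 : ∑ j ∈ m.support, θ * j / M * m j = θ * ((m.sum fun j e => j * e : ℕ) : ℝ) / M := by
      unfold Finsupp.sum
      push_cast
      rw [Finset.mul_sum, Finset.sum_div]
      refine Finset.sum_congr rfl fun j _ => ?_
      ring
    rw [h4]
    refine div_le_div_of_nonneg_right (mul_le_mul_of_nonneg_left ?_ hG.θ_pos.le) hM.le
    exact_mod_cast hQ m hm
  intro n hn
  rw [hfnd_evQ, MonoidAlgebra.coeff_sum, Finset.sum_apply'] at hn
  obtain ⟨m, hm, hm'⟩ := Finset.exists_ne_zero_of_sum_ne_zero hn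
  refine h1 m hm n ?_
  rw [MonoidAlgebra.coeff_smul, Finsupp.smul_apply] at hm'
  exact right_ne_zero_of_mul hm'

private theorem hfnd_l1_smul (c : ℝ) (X : DPoly) : l1 (c • X) ≤ |c| * l1 X := by
  have h1 : c • X = MonoidAlgebra.single 1 c * X := by
    rw [Algebra.smul_def]
    rfl
  rw [h1, ← l1_single 1 c]
  exact l1_mul_le _ _

private theorem hfnd_l1 {M : ℕ} {θ : ℝ} {G : ℕ → ℝ → ℝ} (hG : Cells1 M θ G) (Q : QQ) :
    ∃ (C : ℝ) (E : ℕ), 0 ≤ C ∧ ∀ T : ℝ, 1 ≤ T → l1 (evQ G T Q) ≤ C * T ^ E := by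
  choose B hB0 hB using hfnd_bound hG
  refine ⟨∑ m ∈ Q.support, |Q.coeff m| * ∏ j ∈ m.support, (2 * B j) ^ m j,
    ∑ m ∈ Q.support, ∑ j ∈ m.support, m j,
    Finset.sum_nonneg fun m _ => mul_nonneg (abs_nonneg _) (Finset.prod_nonneg fun j _ =>
      pow_nonneg (mul_nonneg zero_le_two (hB0 j)) _), fun T hT => ?_⟩
  have hT0 : 0 < T := by linarith
  rw [hfnd_evQ]
  refine (l1_sum_le _ _).trans ?_
  rw [Finset.sum_mul]
  refine Finset.sum_le_sum fun m hm => ?_
  refine (hfnd_l1_smul _ _).trans ?_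
  rw [mul_assoc]
  refine mul_le_mul_of_nonneg_left ?_ (abs_nonneg _)
  refine (l1_prod_le _ _).trans ?_
  have h1 : ∀ j ∈ m.support, l1 (H14.GP.bb (G j) T ^ m j) ≤ (2 * B j) ^ m j * T ^ m j := by
    intro j _
    refine (l1_pow_le _ _).trans ?_
    rw [← mul_pow]
    refine pow_le_pow_left₀ (l1_nonneg _) ?_ _
    refine (bb_l1 (hB j) hT0.le).trans ?_
    have := mul_le_mul_of_nonneg_left hT (hB0 j)
    linarith
  refine (Finset.prod_le_prod (fun j _ => l1_nonneg _) h1).trans ?_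
  rw [Finset.prod_mul_distrib, Finset.prod_pow_eq_pow_sum]
  refine mul_le_mul_of_nonneg_left ?_ (Finset.prod_nonneg fun j _ =>
    pow_nonneg (mul_nonneg zero_le_two (hB0 j)) _)
  exact pow_le_pow_right₀ hT (Finset.single_le_sum (f := fun m : ℕ →₀ ℕ => ∑ j ∈ m.support, m j)
    (fun _ _ => Nat.zero_le _) hm)

theorem transferM {v : ℝ → ℝ} (hv : Wgt v) {M : ℕ} {θ : ℝ} {G : ℕ → ℝ → ℝ} (hG : Cells1 M θ G) {W : ℝ} (hW : 1 ≤ W)
    {Hs : List (ℝ → ℝ)} (hH : ∀ H ∈ Hs, Continuous H) {B : ℝ} (hB : ∀ H ∈ Hs, ∀ x, |H x| ≤ B) {D : ℕ}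
    (hD : θ * D / M < 1) {Q : QQ} (hQ : WDeg D Q) :
    Tendsto (fun T => EC v T (fun t => (Hs.map fun H => ev t (bbW H W T)).prod * conj (ev t (evQ G T Q)))) atTop
      (𝓝 ((((∫ x, v x) * MvPolynomial.constantCoeff (DL M (Hs.map (kp G)) Q) : ℝ)) : ℂ)) := by
  have hM : (0 : ℝ) < M := by
    have := hG.M_pos
    exact_mod_cast (by omega : 0 < M)
  have hlim := lim_ip hG hW hH hB hD hQ
  obtain ⟨C₁, E, hC₁, h1⟩ := hfnd_l1 hG Q
  obtain ⟨K, hK⟩ := exists_nat_ge (W * Hs.length + E + 1)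
  have hδ : 0 < 1 - θ * D / M := by linarith
  obtain ⟨C, hC, hmv⟩ := mv hv hδ K
  have hsub : (1 : ℝ) - (1 - θ * D / M) = θ * D / M := by ring
  rw [hsub] at hmv
  -- the difference tends to zero
  have hdiff : Tendsto (fun T => EC v T (fun t => (Hs.map fun H => ev t (bbW H W T)).prod *
      conj (ev t (evQ G T Q))) - (((∫ x, v x) * ip ((Hs.map fun H => bbW H W T).prod) (evQ G T Q) : ℝ) : ℂ))
      atTop (𝓝 0) := by
    refine squeeze_zero_norm' (a := fun T : ℝ => C * (2 * (|B| + 1)) ^ Hs.length * C₁ * T⁻¹) ?_ ?_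
    · filter_upwards [eventually_gt_atTop 1] with T hT
      have hT0 : 0 < T := by linarith
      obtain ⟨⟨N, hN⟩, hl⟩ := hfnd_list Hs hB hT.le (zero_le_one.trans hW)
      have h2 := hmv T hT.le ((Hs.map fun H => bbW H W T).prod) (evQ G T Q) hN.coeff_zero
        (hfnd_supp hG hQ hT)
      have h3 : (fun t => (Hs.map fun H => ev t (bbW H W T)).prod * conj (ev t (evQ G T Q))) =
          fun t => ev t ((Hs.map fun H => bbW H W T).prod) * conj (ev t (evQ G T Q)) := by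
        funext t
        rw [map_list_prod, List.map_map]
        rfl
      rw [h3]
      refine h2.trans ?_
      have h4 : C * T ^ (-(K : ℝ)) * l1 ((Hs.map fun H => bbW H W T).prod) * l1 (evQ G T Q) ≤
          C * T ^ (-(K : ℝ)) * ((2 * (|B| + 1)) ^ Hs.length * T ^ (W * Hs.length)) * (C₁ * T ^ E) := by
        refine mul_le_mul (mul_le_mul_of_nonneg_left hl (by positivity)) (h1 T hT.le) (l1_nonneg _) ?_
        positivity
      refine h4.trans ?_
      have h5 : T ^ (-(K : ℝ)) * T ^ (W * Hs.length) * T ^ E ≤ T⁻¹ := by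
        rw [← Real.rpow_natCast T E, ← Real.rpow_add hT0, ← Real.rpow_add hT0, ← Real.rpow_neg_one]
        exact Real.rpow_le_rpow_of_exponent_le hT.le (by linarith)
      have h6 : C * T ^ (-(K : ℝ)) * ((2 * (|B| + 1)) ^ Hs.length * T ^ (W * Hs.length)) * (C₁ * T ^ E) =
          C * (2 * (|B| + 1)) ^ Hs.length * C₁ * (T ^ (-(K : ℝ)) * T ^ (W * Hs.length) * T ^ E) := by ring
      rw [h6]
      exact mul_le_mul_of_nonneg_left h5 (by positivity)
    · have h2 := tendsto_inv_atTop_zero (𝕜 := ℝ)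
      have h3 := h2.const_mul (C * (2 * (|B| + 1)) ^ Hs.length * C₁)
      rwa [mul_zero] at h3
  have hmain : Tendsto (fun T => (((∫ x, v x) * ip ((Hs.map fun H => bbW H W T).prod) (evQ G T Q) : ℝ) : ℂ))
      atTop (𝓝 ((((∫ x, v x) * MvPolynomial.constantCoeff (DL M (Hs.map (kp G)) Q) : ℝ)) : ℂ)) :=
    (Complex.continuous_ofReal.tendsto _).comp (hlim.const_mul _)
  have hsum := hdiff.add hmain
  rw [zero_add] at hsum
  refine hsum.congr fun T => ?_
  ring

end Pool.Agent.H24.HF
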