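import Mathlib
import Pool.Agent.H24.HF.Defs
import Pool.Agent.H24.HF.Nd
import Pool.Agent.H24.HF.Ne
import Pool.Agent.H14.GP.Vb
import Pool.Agent.H14.GP.Gb

/-!
# Row HFNf: the mean value of `P(Y, Ȳ) · (long prime sum)^j`
-/

open MeasureTheory Set Filter Topology
open scoped Real ContDiff ComplexConjugate

namespace Pool.Agent.H24.HF

open Pool.Agent.H6 Pool.Agent.H14.GP

theorem bbW_cell {M : ℕ} {θ : ℝ} {G : ℕ → ℝ → ℝ} (hG : Cells1 M θ G) {W : ℝ} (hW : 1 ≤ W) {T : ℝ} (hT : 1 < T) (i : ℕ) :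
    bbW (G i) W T = H14.GP.bb (G i) T := by
  have hT0 : 0 < T := by linarith
  have hlT : 0 < Real.log T := Real.log_pos hT
  have hW0 : 0 < W := by linarith
  unfold bbW H14.GP.bb
  have hle : ⌊T⌋₊ + 1 ≤ ⌊T ^ W⌋₊ + 1 := by
    have h1 : T ≤ T ^ W := by
      calc T = T ^ (1 : ℝ) := (Real.rpow_one T).symm
        _ ≤ T ^ W := Real.rpow_le_rpow_of_exponent_le hT.le hW
    have := Nat.floor_le_floor h1
    omega
  have hlog : ∀ p : ℕ, W * (Real.log p / Real.log (T ^ W)) = Real.log p / Real.log T := by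
    intro p
    rw [Real.log_rpow hT0]
    field_simp
  simp only [hlog]
  symm
  refine Finset.sum_subset ?_ ?_
  · intro p hp
    rw [Finset.mem_filter, Finset.mem_range] at hp ⊢
    exact ⟨lt_of_lt_of_le hp.1 hle, hp.2⟩
  · intro p hp hp'
    rw [Finset.mem_filter, Finset.mem_range] at hp hp'
    have hpT : T < p := by
      by_contra h
      apply hp'
      refine ⟨?_, hp.2⟩
      have := Nat.le_floor (not_lt.1 h)
      omega
    have h0 : G i (Real.log p / Real.log T) = 0 := by
      by_contra h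
      have h1 := (hG.cell i _ h).2
      have h2 : 1 < Real.log p / Real.log T := by
        rw [lt_div_iff₀ hlT, one_mul]
        exact Real.log_lt_log hT0 hpT
      have hM : (0 : ℝ) < M := by
        have := hG.M_pos
        exact_mod_cast (by omega : 0 < M)
      have hi : i < M := by
        by_contra h3
        exact h (hG.out i (Or.inr (not_lt.1 h3)) _)
      have h4 : θ * i / M ≤ θ := by
        rw [div_le_iff₀ hM]
        have : (i : ℝ) ≤ M := by exact_mod_cast hi.le
        exact mul_le_mul_of_nonneg_left this hG.θ_pos.le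
      have := hG.θ_lt
      linarith
    rw [h0, zero_mul]
    simp

theorem Nf_inl (G : ℕ → ℝ → ℝ) (T t : ℝ) (α : ℕ →₀ ℕ) :
    evP G T t (MvPolynomial.rename Sum.inl (MvPolynomial.monomial α (1 : ℝ)))
      = ((Finsupp.toMultiset α).toList.map fun i => ev t (H14.GP.bb (G i) T)).prod := by
  unfold evP
  rw [MvPolynomial.aeval_rename, MvPolynomial.aeval_monomial, map_one, one_mul]
  have h1 : ((Finsupp.toMultiset α).toList.map fun i => ev t (H14.GP.bb (G i) T)).prod
      = ((Finsupp.toMultiset α).map fun i => ev t (H14.GP.bb (G i) T)).prod := by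
    rw [← Multiset.prod_coe, ← Multiset.map_coe, Multiset.coe_toList]
  rw [h1, Finsupp.toMultiset_map, Finsupp.prod_toMultiset]
  rw [Finsupp.prod_mapDomain_index]
  · rfl
  · intro b
    exact pow_zero b
  · intro b m₁ m₂
    exact pow_add b m₁ m₂

theorem Nf_inr (G : ℕ → ℝ → ℝ) (T t : ℝ) (Q : QQ) :
    evP G T t (MvPolynomial.rename Sum.inr Q) = conj (ev t (evQ G T Q)) := by
  have h : ((evP G T t).comp (MvPolynomial.rename Sum.inr)) =
      ((Complex.conjAe : ℂ →ₐ[ℝ] ℂ).comp (ev t)).comp (evQ G T) := by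
    apply MvPolynomial.algHom_ext
    intro i
    simp [evP, evQ]
  exact DFunLike.congr_fun h Q

theorem Nf_iter (M : ℕ) (κ : ℕ → ℝ) (R : QQ) (j : ℕ) : ∀ Q : QQ,
    (DK M κ)^[j] (MvPolynomial.rename Sum.inl R * MvPolynomial.rename Sum.inr Q)
      = MvPolynomial.rename Sum.inl R * MvPolynomial.rename Sum.inr ((DQ M κ)^[j] Q) := by
  induction j with
  | zero =>
    intro Q
    rfl
  | succ j ih =>
    intro Q
    rw [Function.iterate_succ_apply, Function.iterate_succ_apply, DK_rename, ih]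

theorem Nf_one {v : ℝ → ℝ} (hv : Wgt v) {M : ℕ} {θ : ℝ} {G : ℕ → ℝ → ℝ} (hG : Cells1 M θ G) {W : ℝ} (hW : 1 ≤ W)
    {H : ℝ → ℝ} (hH : Continuous H) {B : ℝ} (hB : ∀ x, |H x| ≤ B) (j : ℕ) {N' : ℕ} (α β : ℕ →₀ ℕ)
    (hβ : (β.sum fun i e => i * e) ≤ N') (hD : θ * N' / M < 1) :
    Tendsto (fun T => EC v T (fun t => evP G T t (MvPolynomial.rename Sum.inl (MvPolynomial.monomial α (1 : ℝ)) *
        MvPolynomial.rename Sum.inr (MvPolynomial.monomial β (1 : ℝ))) * ev t (bbW H W T) ^ j)) atTop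
      (𝓝 ((((∫ x, v x) * EG (sM M) ((DK M (kp G H))^[j] (MvPolynomial.rename Sum.inl (MvPolynomial.monomial α (1 : ℝ)) *
        MvPolynomial.rename Sum.inr (MvPolynomial.monomial β (1 : ℝ)))) : ℝ)) : ℂ)) := by
  obtain ⟨B', hB'0, hB'⟩ := Nc_bdG hG
  set l := (Finsupp.toMultiset α).toList with hl
  have hQ : WDeg N' (MvPolynomial.monomial β (1 : ℝ)) := by
    intro m hm
    have := MvPolynomial.support_monomial_subset hm
    rw [Finset.mem_singleton] at this
    rw [this]
    exact hβ
  have key := transferM hv hG hW (Hs := List.replicate j H ++ l.map G) (B := max B B') (by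
      intro K hK
      rw [List.mem_append] at hK
      rcases hK with hK | hK
      · rw [(List.mem_replicate.1 hK).2]
        exact hH
      · obtain ⟨i, _, rfl⟩ := List.mem_map.1 hK
        exact (hG.smooth i).continuous) (by
      intro K hK x
      rw [List.mem_append] at hK
      rcases hK with hK | hK
      · rw [(List.mem_replicate.1 hK).2]
        exact (hB x).trans (le_max_left _ _)
      · obtain ⟨i, _, rfl⟩ := List.mem_map.1 hK
        exact (hB' i x).trans (le_max_right _ _)) hD hQ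
  have e1 : MvPolynomial.constantCoeff (DL M ((List.replicate j H ++ l.map G).map (kp G)) (MvPolynomial.monomial β (1 : ℝ)))
      = EG (sM M) ((DK M (kp G H))^[j] (MvPolynomial.rename Sum.inl (MvPolynomial.monomial α (1 : ℝ)) *
        MvPolynomial.rename Sum.inr (MvPolynomial.monomial β (1 : ℝ)))) := by
    rw [List.map_append, DL_append, List.map_replicate, DL_replicate, List.map_map, Nf_iter]
    exact EG_cells hG α _
  rw [e1] at key
  refine key.congr' ?_
  filter_upwards [eventually_gt_atTop 1] with T hT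
  congr 1
  funext t
  rw [map_mul, Nf_inl, Nf_inr, List.map_append, List.prod_append, List.map_replicate, List.prod_replicate, List.map_map]
  have e2 : (l.map ((fun H => ev t (bbW H W T)) ∘ G)) = l.map fun i => ev t (H14.GP.bb (G i) T) := by
    refine List.map_congr_left fun i _ => ?_
    simp only [Function.comp_apply]
    rw [bbW_cell hG hW hT]
  rw [e2]
  ring

theorem Nf_cont (G : ℕ → ℝ → ℝ) (T : ℝ) (P : PP) : Continuous (fun t => evP G T t P) := by
  induction P using MvPolynomial.induction_on with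
  | C a =>
    have : (fun t => evP G T t (MvPolynomial.C a)) = fun _ => (algebraMap ℝ ℂ a) := by
      funext t
      unfold evP
      rw [MvPolynomial.aeval_C]
    rw [this]
    exact continuous_const
  | add P Q hP hQ =>
    simp only [map_add]
    exact hP.add hQ
  | mul_X P i hP =>
    simp only [map_mul]
    refine hP.mul ?_
    unfold evP
    simp only [MvPolynomial.aeval_X]
    cases i with
    | inl i => exact continuous_ev _
    | inr i => exact Complex.continuous_conj.comp (continuous_ev _)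

theorem Nf_DK_add (M : ℕ) (κ : ℕ → ℝ) (P Q : PP) : DK M κ (P + Q) = DK M κ P + DK M κ Q := by
  unfold DK
  rw [← Finset.sum_add_distrib]
  exact Finset.sum_congr rfl fun i _ => by rw [map_add, smul_add]

theorem Nf_DK_smul (M : ℕ) (κ : ℕ → ℝ) (c : ℝ) (P : PP) : DK M κ (c • P) = c • DK M κ P := by
  unfold DK
  rw [Finset.smul_sum]
  exact Finset.sum_congr rfl fun i _ => by rw [Derivation.map_smul, smul_comm]

/-- the operator `DK` as a linear map -/
noncomputable def Nf_lin (M : ℕ) (κ : ℕ → ℝ) : PP →ₗ[ℝ] PP where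
  toFun := DK M κ
  map_add' := Nf_DK_add M κ
  map_smul' := Nf_DK_smul M κ

theorem Nf_lin_pow (M : ℕ) (κ : ℕ → ℝ) (j : ℕ) (P : PP) : ((Nf_lin M κ) ^ j) P = (DK M κ)^[j] P := by
  rw [Module.End.pow_apply]
  rfl

theorem Nf_split (m : (ℕ ⊕ ℕ) →₀ ℕ) : ∃ α β : ℕ →₀ ℕ,
    (MvPolynomial.monomial m (1 : ℝ) : PP) = MvPolynomial.rename Sum.inl (MvPolynomial.monomial α (1 : ℝ)) *
        MvPolynomial.rename Sum.inr (MvPolynomial.monomial β (1 : ℝ)) ∧
    (β.sum fun i e => i * e) = (m.sum fun i e => Sum.elim (fun _ => 0) (fun j => j * e) i) := by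
  classical
  set α := (Finsupp.sumFinsuppEquivProdFinsupp m).1 with hα
  set β := (Finsupp.sumFinsuppEquivProdFinsupp m).2 with hβ
  have hm : m = Finsupp.mapDomain Sum.inl α + Finsupp.mapDomain Sum.inr β := by
    ext i
    rw [Finsupp.add_apply]
    cases i with
    | inl i =>
      rw [Finsupp.mapDomain_apply Sum.inl_injective, Finsupp.mapDomain_of_notMem_range _ _ (by simp), add_zero, hα]
      rfl
    | inr i =>
      rw [Finsupp.mapDomain_apply Sum.inr_injective, Finsupp.mapDomain_of_notMem_range _ _ (by simp), zero_add, hβ]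
      rfl
  refine ⟨α, β, ?_, ?_⟩
  · rw [MvPolynomial.rename_monomial, MvPolynomial.rename_monomial, MvPolynomial.monomial_mul, one_mul, ← hm]
  · conv_rhs => rw [hm]
    rw [Finsupp.sum_add_index' (by intro i; cases i <;> simp) (by intro i a b; cases i <;> simp [mul_add]),
      Finsupp.sum_mapDomain_index_inj Sum.inl_injective, Finsupp.sum_mapDomain_index_inj Sum.inr_injective]
    simp [Finsupp.sum]

theorem transferPow {v : ℝ → ℝ} (hv : Wgt v) {M : ℕ} {θ : ℝ} {G : ℕ → ℝ → ℝ} (hG : Cells1 M θ G) {W : ℝ} (hW : 1 ≤ W)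
    {H : ℝ → ℝ} (hH : Continuous H) {B : ℝ} (hB : ∀ x, |H x| ≤ B) (j : ℕ) {N N' : ℕ} {P : PP} (hP : Deg2' N N' P)
    (hD : θ * N' / M < 1) :
    Tendsto (fun T => EC v T (fun t => evP G T t P * ev t (bbW H W T) ^ j)) atTop
      (𝓝 ((((∫ x, v x) * EG (sM M) ((DK M (kp G H))^[j] P) : ℝ)) : ℂ)) := by
  classical
  have hPs : P = ∑ m ∈ P.support, P.coeff m • (MvPolynomial.monomial m (1 : ℝ) : PP) := by
    conv_lhs => rw [P.as_sum]
    refine Finset.sum_congr rfl fun m _ => ?_
    rw [MvPolynomial.smul_monomial, smul_eq_mul, mul_one]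
  have hlim : Tendsto (fun T => ∑ m ∈ P.support, ((P.coeff m : ℝ) : ℂ) *
      EC v T (fun t => evP G T t (MvPolynomial.monomial m (1 : ℝ)) * ev t (bbW H W T) ^ j)) atTop
      (𝓝 (∑ m ∈ P.support, ((P.coeff m : ℝ) : ℂ) *
        ((((∫ x, v x) * EG (sM M) ((DK M (kp G H))^[j] (MvPolynomial.monomial m (1 : ℝ))) : ℝ)) : ℂ))) := by
    refine tendsto_finsetSum _ fun m hm => ?_
    obtain ⟨α, β, h1, h2⟩ := Nf_split m
    refine Tendsto.const_mul _ ?_
    rw [h1]
    refine Nf_one hv hG hW hH hB j α β ?_ hD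
    rw [h2]
    exact (hP m hm).2
  have e1 : (∑ m ∈ P.support, ((P.coeff m : ℝ) : ℂ) *
        ((((∫ x, v x) * EG (sM M) ((DK M (kp G H))^[j] (MvPolynomial.monomial m (1 : ℝ))) : ℝ)) : ℂ))
      = ((((∫ x, v x) * EG (sM M) ((DK M (kp G H))^[j] P) : ℝ)) : ℂ) := by
    have h3 : EG (sM M) ((DK M (kp G H))^[j] P) =
        ∑ m ∈ P.support, P.coeff m * EG (sM M) ((DK M (kp G H))^[j] (MvPolynomial.monomial m (1 : ℝ))) := by
      rw [← Nf_lin_pow]
      conv_lhs => rw [hPs]
      rw [map_sum, map_sum]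
      refine Finset.sum_congr rfl fun m _ => ?_
      rw [map_smul, map_smul, smul_eq_mul, Nf_lin_pow]
    rw [h3]
    push_cast
    rw [Finset.mul_sum]
    refine Finset.sum_congr rfl fun m _ => ?_
    ring
  rw [e1] at hlim
  refine hlim.congr' ?_
  filter_upwards [eventually_gt_atTop 0] with T hT
  rw [← Vb_EC_sum hv hT P.support (fun m => ((P.coeff m : ℝ) : ℂ)) (fun m t => evP G T t (MvPolynomial.monomial m (1 : ℝ)) * ev t (bbW H W T) ^ j)
    (fun m _ => (Nf_cont G T _).mul ((continuous_ev _).pow j))]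
  congr 1
  funext t
  conv_rhs => rw [hPs]
  rw [map_sum, Finset.sum_mul]
  refine Finset.sum_congr rfl fun m _ => ?_
  rw [map_smul, Complex.real_smul]
  ring

end Pool.Agent.H24.HF
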